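import Mathlib

set_option autoImplicit false
set_option linter.unusedSectionVars false

namespace Pool.Agent.Results.MP_993768_co.NoUniversalRooted

open Set

/-- Two flags (maximal chains) are adjacent when they differ in exactly one face. -/
def FlagAdj {α : Type} [PartialOrder α] (A B : Flag α) : Prop :=
  ((A : Set α) \ B).ncard = 1 ∧ ((B : Set α) \ A).ncard = 1

/-- An abstract polytope of rank `n`. The rank function is shifted by one: the least face has
`rk = 0`, vertices have `rk = 1`, facets have `rk = n`, the greatest face has `rk = n + 1`.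
Every flag has exactly one face of each rank; the diamond condition and strong
flag-connectedness hold. (Polytopes of finite rank are countable, so `Face : Type` is no loss.) -/
structure Polytope (n : ℕ) where
  Face : Type
  [ord : PartialOrder Face]
  [bdd : BoundedOrder Face]
  rk : Face → ℕ
  rk_strictMono : StrictMono rk
  flag_ranks : ∀ A : Flag Face, rk '' (A : Set Face) = Set.Iic (n + 1)
  diamond : ∀ F G : Face, F < G → rk G = rk F + 2 → (Set.Ioo F G).ncard = 2
  connected : ∀ A B : Flag Face, Relation.ReflTransGen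
    (fun C D : Flag Face => FlagAdj C D ∧ (A : Set Face) ∩ B ⊆ D) A B

attribute [instance] Polytope.ord Polytope.bdd

section ranked

variable {α : Type} [PartialOrder α] [BoundedOrder α] {rk : α → ℕ} {n : ℕ}

lemma flag_unique (hm : StrictMono rk) (A : Flag α) {x y : α} (hx : x ∈ A) (hy : y ∈ A)
    (h : rk x = rk y) : x = y := by
  rcases A.le_or_le hx hy with h1 | h1
  · rcases h1.eq_or_lt with h2 | h2
    · exact h2
    · exact absurd (hm h2) (by omega)
  · rcases h1.eq_or_lt with h2 | h2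
    · exact h2.symm
    · exact absurd (hm h2) (by omega)

lemma flag_injOn (hm : StrictMono rk) (A : Flag α) : Set.InjOn rk (A : Set α) :=
  fun _ hx _ hy h => flag_unique hm A hx hy h

lemma flag_finite (hm : StrictMono rk) (hf : ∀ A : Flag α, rk '' (A : Set α) = Set.Iic (n + 1))
    (A : Flag α) : (A : Set α).Finite := by
  apply Set.Finite.of_finite_image _ (flag_injOn hm A)
  rw [hf A]; exact Set.finite_Iic _

lemma flag_ncard (hm : StrictMono rk) (hf : ∀ A : Flag α, rk '' (A : Set α) = Set.Iic (n + 1))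
    (A : Flag α) : (A : Set α).ncard = n + 2 := by
  rw [← (flag_injOn hm A).ncard_image, hf A]
  rw [Set.ncard_eq_toFinset_card']
  simp

lemma flag_exists (hf : ∀ A : Flag α, rk '' (A : Set α) = Set.Iic (n + 1))
    (A : Flag α) {i : ℕ} (hi : i ≤ n + 1) : ∃ x ∈ A, rk x = i := by
  have : i ∈ rk '' (A : Set α) := by rw [hf A]; exact hi
  obtain ⟨x, hx, h⟩ := this
  exact ⟨x, hx, h⟩

lemma flag_lt (hm : StrictMono rk) (A : Flag α) {x y : α} (hx : x ∈ A) (hy : y ∈ A)
    (h : rk x < rk y) : x < y := by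
  rcases A.le_or_le hx hy with h1 | h1
  · rcases h1.eq_or_lt with h2 | h2
    · subst h2; omega
    · exact h2
  · rcases h1.eq_or_lt with h2 | h2
    · subst h2; omega
    · exact absurd (hm h2) (by omega)

lemma flag_le (hm : StrictMono rk) (A : Flag α) {x y : α} (hx : x ∈ A) (hy : y ∈ A)
    (h : rk x ≤ rk y) : x ≤ y := by
  rcases h.lt_or_eq with h1 | h1
  · exact (flag_lt hm A hx hy h1).le
  · exact (flag_unique hm A hx hy h1).le

lemma flag_eq_of_subset {A B : Flag α} (h : (A : Set α) ⊆ B) : A = B := by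
  apply SetLike.coe_injective
  exact A.max_chain' B.Chain' h

/-- a chain meeting every rank is a flag -/
lemma chain_is_flag (hm : StrictMono rk)
    (hf : ∀ A : Flag α, rk '' (A : Set α) = Set.Iic (n + 1)) {c : Set α}
    (hc : IsChain (· ≤ ·) c) (hr : Set.Iic (n + 1) ⊆ rk '' c) :
    ∃ A : Flag α, (A : Set α) = c := by
  obtain ⟨A, hA⟩ := hc.exists_subset_flag
  refine ⟨A, Set.Subset.antisymm ?_ hA⟩
  intro x hx
  have h1 : rk x ∈ Set.Iic (n + 1) := by rw [← hf A]; exact ⟨x, hx, rfl⟩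
  obtain ⟨y, hy, hxy⟩ := hr h1
  have := flag_unique hm A (hA hy) hx hxy
  rwa [← this]

/-- exchanging a single face -/
lemma exchange (hm : StrictMono rk)
    (hf : ∀ A : Flag α, rk '' (A : Set α) = Set.Iic (n + 1)) (A : Flag α) {x y F G : α}
    (hx : x ∈ A) (hF : F ∈ A) (hG : G ∈ A) (hFx : rk x = rk F + 1) (hGx : rk G = rk x + 1)
    (hFy : F < y) (hyG : y < G) (hxy : x ≠ y) :
    ∃ B : Flag α, (B : Set α) = insert y ((A : Set α) \ {x}) ∧ FlagAdj A B ∧ y ∉ A := by
  have hry : rk y = rk x := by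
    have := hm hFy; have := hm hyG; omega
  have hyA : y ∉ A := fun h => hxy (flag_unique hm A hx h hry.symm)
  have hc : IsChain (· ≤ ·) (insert y ((A : Set α) \ {x})) := by
    apply (A.chain_le.mono Set.sdiff_subset).insert
    intro b hb _
    have hbA : b ∈ A := hb.1
    have hbx : rk b ≠ rk x := fun h => hb.2 (flag_unique hm A hbA hx h)
    rcases lt_or_gt_of_ne hbx with h | h
    · right
      exact (flag_le hm A hbA hF (by omega)).trans hFy.le
    · left
      exact hyG.le.trans (flag_le hm A hG hbA (by omega))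
  obtain ⟨B, hB⟩ := chain_is_flag hm hf hc (by
    rw [← hf A]
    rintro _ ⟨b, hb, rfl⟩
    by_cases h : b = x
    · exact ⟨y, Set.mem_insert _ _, by rw [h]; exact hry⟩
    · exact ⟨b, Set.mem_insert_of_mem _ ⟨hb, h⟩, rfl⟩)
  refine ⟨B, hB, ⟨?_, ?_⟩, hyA⟩
  · have : (A : Set α) \ B = {x} := by
      rw [hB]; ext b
      constructor
      · rintro ⟨h1, h2⟩
        by_contra h3
        exact h2 (Set.mem_insert_of_mem _ ⟨h1, h3⟩)
      · rintro rfl
        refine ⟨hx, ?_⟩
        rintro (h | h)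
        · exact hxy h
        · exact h.2 rfl
    rw [this]; exact Set.ncard_singleton _
  · have : (B : Set α) \ A = {y} := by
      rw [hB]; ext b
      constructor
      · rintro ⟨h1 | h1, h2⟩
        · exact h1
        · exact (h2 h1.1).elim
      · rintro rfl
        exact ⟨Set.mem_insert _ _, hyA⟩
    rw [this]; exact Set.ncard_singleton _

/-- If all sections of rank at least two are connected, the poset is strongly flag-connected. -/
theorem connected_of_sections (hm : StrictMono rk)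
    (hf : ∀ A : Flag α, rk '' (A : Set α) = Set.Iic (n + 1))
    (hs : ∀ F G : α, F < G → rk F + 3 ≤ rk G → ∀ H ∈ Set.Ioo F G, ∀ K ∈ Set.Ioo F G,
      Relation.ReflTransGen (fun a b => b ∈ Set.Ioo F G ∧ (a ≤ b ∨ b ≤ a)) H K) :
    ∀ A B : Flag α, Relation.ReflTransGen
      (fun C D : Flag α => FlagAdj C D ∧ (A : Set α) ∩ B ⊆ D) A B := by
  have key : ∀ k : ℕ, ∀ A B : Flag α, n + 2 - ((A : Set α) ∩ B).ncard = k →
      Relation.ReflTransGen (fun C D : Flag α => FlagAdj C D ∧ (A : Set α) ∩ B ⊆ D) A B := by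
    intro k
    induction k using Nat.strong_induction_on with
    | _ k ih =>
    intro A B hk
    by_cases hAB : A = B
    · subst hAB; exact Relation.ReflTransGen.refl
    have hAfin := flag_finite hm hf A
    have hAcard := flag_ncard hm hf A
    -- for flags sharing more, use the induction hypothesis
    have ih' : ∀ C D : Flag α, ((A : Set α) ∩ B).ncard < ((C : Set α) ∩ D).ncard →
        (A : Set α) ∩ B ⊆ (C : Set α) ∩ D →
        Relation.ReflTransGen (fun X Y : Flag α => FlagAdj X Y ∧ (A : Set α) ∩ B ⊆ Y) C D := by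
      intro C D h1 h2
      have h3 : ((A : Set α) ∩ B).ncard ≤ n + 2 := by
        rw [← hAcard]; exact Set.ncard_le_ncard Set.inter_subset_left hAfin
      have h4 : ((C : Set α) ∩ D).ncard ≤ n + 2 := by
        rw [← flag_ncard hm hf C]
        exact Set.ncard_le_ncard Set.inter_subset_left (flag_finite hm hf C)
      have := ih (n + 2 - ((C : Set α) ∩ D).ncard) (by omega) C D rfl
      refine (Relation.ReflTransGen.mono ?_) C D this
      intro X Y h
      exact ⟨h.1, h2.trans h.2⟩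
    -- the ranks where A and B differ
    have hex : ∃ i, i ≤ n + 1 ∧ ∃ x ∈ A, rk x = i ∧ x ∉ B := by
      by_contra hcon
      push Not at hcon
      apply hAB
      apply flag_eq_of_subset
      intro x hx
      have : rk x ∈ Set.Iic (n + 1) := by rw [← hf A]; exact ⟨x, hx, rfl⟩
      exact hcon (rk x) this x hx rfl
    classical
    obtain ⟨hi1, x, hxA, hxi, hxB⟩ := Nat.find_spec hex
    set i := Nat.find hex with hi
    have himin : ∀ y ∈ A, rk y < i → y ∈ B := by
      intro y hy hyi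
      by_contra hyB
      have h1 : rk y ≤ n + 1 := by omega
      exact Nat.find_min hex hyi ⟨h1, y, hy, rfl, hyB⟩
    have hbotrk : rk (⊥ : α) < i := by
      have hne : (⊥ : α) ≠ x := fun h => hxB (h ▸ B.bot_mem)
      rw [← hxi]; exact hm (lt_of_le_of_ne bot_le hne)
    have hi0 : 0 < i := by omega
    obtain ⟨F, hFA, hFi⟩ := flag_exists hf A (show i - 1 ≤ n + 1 by omega)
    have hFB : F ∈ B := himin F hFA (by omega)
    -- the next common rank
    have hex2 : ∃ j, i < j ∧ ∃ y ∈ A, rk y = j ∧ y ∈ B := by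
      refine ⟨rk (⊤ : α), ?_, ⊤, A.top_mem, rfl, B.top_mem⟩
      have hne : x ≠ (⊤ : α) := fun h => hxB (h ▸ B.top_mem)
      rw [← hxi]; exact hm (lt_of_le_of_ne le_top hne)
    obtain ⟨hij, G, hGA, hGj, hGB⟩ := Nat.find_spec hex2
    set j := Nat.find hex2 with hj
    have hjmin : ∀ y ∈ A, i < rk y → rk y < j → y ∉ B := by
      intro y hy h1 h2 h3
      exact Nat.find_min hex2 h2 ⟨h1, y, hy, rfl, h3⟩
    have hcommon : ∀ y ∈ (A : Set α) ∩ B, y ≤ F ∨ G ≤ y := by
      rintro y ⟨hy1, hy2⟩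
      by_contra hcon
      rw [not_or] at hcon
      have h1 : rk F < rk y := by
        by_contra h
        exact hcon.1 (flag_le hm A hy1 hFA (by omega))
      have h2 : rk y < rk G := by
        by_contra h
        exact hcon.2 (flag_le hm A hGA hy1 (by omega))
      rcases Nat.lt_or_ge i (rk y) with h3 | h3
      · exact hjmin y hy1 h3 (by omega) hy2
      · have h4 : rk y = rk x := by omega
        exact hxB ((flag_unique hm A hy1 hxA h4) ▸ hy2)
    obtain ⟨y, hyB, hyi⟩ := flag_exists hf B hi1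
    have hyA : y ∉ A := by
      intro h
      have : x = y := flag_unique hm A hxA h (by omega)
      exact hxB (this ▸ hyB)
    have hxy : x ≠ y := fun h => hyA (h ▸ hxA)
    have hFx : F < x := flag_lt hm A hFA hxA (by omega)
    have hxG : x < G := flag_lt hm A hxA hGA (by omega)
    have hFy : F < y := flag_lt hm B hFB hyB (by omega)
    have hyG : y < G := flag_lt hm B hyB hGB (by omega)
    have hABfin : ((A : Set α) ∩ B).Finite := hAfin.subset Set.inter_subset_left
    -- extending the common part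
    have hbig : ∀ C D : Flag α, (A : Set α) ∩ B ⊆ (C : Set α) ∩ D →
        (∃ z ∈ (C : Set α) ∩ D, z ∉ (A : Set α) ∩ B) →
        ((A : Set α) ∩ B).ncard < ((C : Set α) ∩ D).ncard := by
      rintro C D h1 ⟨z, hz1, hz2⟩
      apply Set.ncard_lt_ncard
      · exact ⟨h1, fun h => hz2 (h hz1)⟩
      · exact (flag_finite hm hf C).subset Set.inter_subset_left
    rcases Nat.lt_or_ge j (i + 2) with hcase | hcase
    · -- a single exchange
      obtain ⟨C, hC, hadj, _⟩ := exchange hm hf A hxA hFA hGA (by omega) (by omega) hFy hyG hxy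
      have hsub : (A : Set α) ∩ B ⊆ C := by
        rintro z ⟨hz1, hz2⟩
        rw [hC]
        refine Set.mem_insert_of_mem _ ⟨hz1, ?_⟩
        intro h
        exact hxB (by rw [← (show z = x from h)]; exact hz2)
      have h1 : Relation.ReflTransGen (fun X Y : Flag α => FlagAdj X Y ∧ (A : Set α) ∩ B ⊆ Y) C B := by
        apply ih'
        · apply hbig
          · exact fun z hz => ⟨hsub hz, hz.2⟩
          · refine ⟨y, ⟨?_, hyB⟩, fun h => hyA h.1⟩
            rw [hC]; exact Set.mem_insert _ _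
        · exact fun z hz => ⟨hsub hz, hz.2⟩
      exact Relation.ReflTransGen.head ⟨hadj, hsub⟩ h1
    · -- use the connectivity of the section
      have hFG : F < G := hFx.trans hxG
      have hpath := hs F G hFG (by omega) x ⟨hFx, hxG⟩ y ⟨hFy, hyG⟩
      have claim : ∀ z, Relation.ReflTransGen
          (fun a b => b ∈ Set.Ioo F G ∧ (a ≤ b ∨ b ≤ a)) x z → z ∈ Set.Ioo F G ∧
          ∃ C : Flag α, z ∈ C ∧ (A : Set α) ∩ B ⊆ C ∧
          Relation.ReflTransGen (fun X Y : Flag α => FlagAdj X Y ∧ (A : Set α) ∩ B ⊆ Y) A C := by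
        intro z hz
        induction hz with
        | refl => exact ⟨⟨hFx, hxG⟩, A, hxA, Set.inter_subset_left, Relation.ReflTransGen.refl⟩
        | tail _ hbc ih2 =>
          rename_i b c _
          obtain ⟨hb, C, hbC, hsubC, hpC⟩ := ih2
          obtain ⟨hc, hcomp⟩ := hbc
          refine ⟨hc, ?_⟩
          have hchain : IsChain (· ≤ ·) (insert c (insert b ((A : Set α) ∩ B))) := by
            apply IsChain.insert
            · apply IsChain.insert
              · exact A.chain_le.mono Set.inter_subset_left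
              · intro w hw _
                rcases hcommon w hw with h | h
                · exact Or.inr (h.trans hb.1.le)
                · exact Or.inl (hb.2.le.trans h)
            · intro w hw _
              rcases hw with h | h
              · subst h
                exact hcomp.symm
              · rcases hcommon w h with h | h
                · exact Or.inr (h.trans hc.1.le)
                · exact Or.inl (hc.2.le.trans h)
          obtain ⟨D, hD⟩ := hchain.exists_subset_flag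
          have hcD : c ∈ D := hD (Set.mem_insert _ _)
          have hbD : b ∈ D := hD (Set.mem_insert_of_mem _ (Set.mem_insert _ _))
          have hsubD : (A : Set α) ∩ B ⊆ D := fun w hw =>
            hD (Set.mem_insert_of_mem _ (Set.mem_insert_of_mem _ hw))
          refine ⟨D, hcD, hsubD, hpC.trans ?_⟩
          apply ih'
          · apply hbig
            · exact fun w hw => ⟨hsubC hw, hsubD hw⟩
            · refine ⟨b, ⟨hbC, hbD⟩, fun h => ?_⟩
              rcases hcommon b h with h' | h'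
              · exact absurd (hb.1.trans_le h') (lt_irrefl _)
              · exact absurd (hb.2.trans_le h') (lt_irrefl _)
          · exact fun w hw => ⟨hsubC hw, hsubD hw⟩
      obtain ⟨_, C, hyC, hsubC, hpC⟩ := claim y hpath
      refine hpC.trans ?_
      apply ih'
      · apply hbig
        · exact fun w hw => ⟨hsubC hw, hw.2⟩
        · exact ⟨y, ⟨hyC, hyB⟩, fun h => hyA h.1⟩
      · exact fun w hw => ⟨hsubC hw, hw.2⟩
  intro A B
  exact key _ A B rfl

/-- a finite graded bounded poset: every flag meets every rank -/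
theorem flag_ranks_of_graded [Finite α] (hm : StrictMono rk) (h0 : rk (⊥ : α) = 0)
    (h1 : rk (⊤ : α) = n + 1)
    (hg : ∀ F G : α, F < G → rk F + 2 ≤ rk G → ∃ H, F < H ∧ H < G) :
    ∀ A : Flag α, rk '' (A : Set α) = Set.Iic (n + 1) := by
  intro A
  apply Set.Subset.antisymm
  · rintro _ ⟨x, _, rfl⟩
    rw [Set.mem_Iic, ← h1]
    exact hm.monotone le_top
  · intro i hi
    by_contra hcon
    have hne : ∀ x ∈ A, rk x ≠ i := fun x hx h => hcon ⟨x, hx, h⟩
    have hfin : (A : Set α).Finite := Set.toFinite _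
    -- the largest element of rank below i
    obtain ⟨F, ⟨hFA, hFi⟩, hFmax⟩ := Set.exists_max_image {x | x ∈ A ∧ rk x < i} rk
      (Set.toFinite _) ⟨⊥, A.bot_mem, by
        have := hne ⊥ A.bot_mem
        omega⟩
    obtain ⟨G, ⟨hGA, hGi⟩, hGmin⟩ := Set.exists_min_image {x | x ∈ A ∧ i < rk x} rk
      (Set.toFinite _) ⟨⊤, A.top_mem, by
        have := hne ⊤ A.top_mem
        have h2 : i ≤ n + 1 := hi
        omega⟩
    have hFG : F < G := flag_lt hm A hFA hGA (by omega)
    obtain ⟨H, hH1, hH2⟩ := hg F G hFG (by omega)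
    have hHA : H ∈ A := by
      have hc : IsChain (· ≤ ·) (insert H (A : Set α)) := by
        apply A.chain_le.insert
        intro b hb _
        rcases Nat.lt_or_ge (rk b) i with h | h
        · exact Or.inr ((flag_le hm A hb hFA (hFmax b ⟨hb, h⟩)).trans hH1.le)
        · have : i < rk b := lt_of_le_of_ne h (Ne.symm (hne b hb))
          exact Or.inl (hH2.le.trans (flag_le hm A hGA hb (hGmin b ⟨hb, this⟩)))
      have := A.max_chain' hc (Set.subset_insert _ _)
      rw [show (H ∈ A) = (H ∈ (A : Set α)) from rfl]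
      have h2 : (A : Set α) = insert H (A : Set α) := this
      rw [h2]; exact Set.mem_insert _ _
    have hr1 := hm hH1
    have hr2 := hm hH2
    rcases lt_or_gt_of_ne (hne H hHA) with h | h
    · have := hFmax H ⟨hHA, h⟩; omega
    · have := hGmin H ⟨hHA, h⟩; omega

end ranked


/-- `U` covers `R`: a rank preserving, incidence preserving surjection mapping adjacent flags
to adjacent flags. -/
structure IsCovering {n : ℕ} (U R : Polytope n) (π : U.Face → R.Face) : Prop where
  surj : Function.Surjective π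
  mono : Monotone π
  rank : ∀ x, R.rk (π x) = U.rk x
  adj : ∀ A B : Flag U.Face, FlagAdj A B → ∃ A' B' : Flag R.Face,
    (A' : Set R.Face) = π '' A ∧ (B' : Set R.Face) = π '' B ∧ FlagAdj A' B'

/-- `R` is an amalgamation of `P` and `Q`: all facets of `R` are isomorphic to `P` and all
vertex-figures of `R` are isomorphic to `Q`. -/
structure IsAmalgamation {n : ℕ} (P Q : Polytope n) (R : Polytope (n + 1)) : Prop where
  facets : ∀ F : R.Face, R.rk F = n + 1 → Nonempty (Set.Iic F ≃o P.Face)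
  vertexFigures : ∀ v : R.Face, R.rk v = 1 → Nonempty (Set.Ici v ≃o Q.Face)

/-- The restriction of the flag `A` of `R` to its facet lies in the orbit of the flag `Φ` of `P`
(under the automorphism group of `P`). -/
def FacetType {n : ℕ} (P : Polytope n) (Φ : Flag P.Face) (R : Polytope (n + 1))
    (A : Flag R.Face) : Prop :=
  ∃ F ∈ A, R.rk F = n + 1 ∧ ∃ e : Set.Iic F ≃o P.Face, ∀ x : Set.Iic F, (x : R.Face) ∈ A ↔ e x ∈ Φ

/-- The restriction of the flag `A` of `R` to its vertex-figure lies in the orbit of the flag `Ψ`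
of `Q` (under the automorphism group of `Q`). -/
def VertexType {n : ℕ} (Q : Polytope n) (Ψ : Flag Q.Face) (R : Polytope (n + 1))
    (A : Flag R.Face) : Prop :=
  ∃ v ∈ A, R.rk v = 1 ∧ ∃ e : Set.Ici v ≃o Q.Face, ∀ x : Set.Ici v, (x : R.Face) ∈ A ↔ e x ∈ Ψ

/-- `R` is a rooted amalgamation of `P` and `Q`, rooted at the flag orbits of `Φ` and `Ψ`. -/
structure IsRootedAmalgamation {n : ℕ} (P Q : Polytope n) (Φ : Flag P.Face) (Ψ : Flag Q.Face)
    (R : Polytope (n + 1)) : Prop where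
  amalgamation : IsAmalgamation P Q R
  facet_to_vertex : ∀ A : Flag R.Face, FacetType P Φ R A → VertexType Q Ψ R A
  vertex_to_facet : ∀ A : Flag R.Face, VertexType Q Ψ R A → FacetType P Φ R A

/-- `U` is a universal rooted amalgamation of `P` and `Q` with roots the orbits of `Φ`, `Ψ`. -/
structure IsUniversalRooted {n : ℕ} (P Q : Polytope n) (Φ : Flag P.Face) (Ψ : Flag Q.Face)
    (U : Polytope (n + 1)) : Prop where
  rooted : IsRootedAmalgamation P Q Φ Ψ U
  covers : ∀ R : Polytope (n + 1), IsRootedAmalgamation P Q Φ Ψ R →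
    ∃ π : U.Face → R.Face, IsCovering U R π

section basics

variable {n : ℕ}

lemma rk_bot (P : Polytope n) : P.rk ⊥ = 0 := by
  obtain ⟨A, -⟩ := (IsChain.empty (r := (· ≤ ·)) (α := P.Face)).exists_subset_flag
  obtain ⟨x, _, hx⟩ := flag_exists P.flag_ranks A (Nat.zero_le _)
  have := P.rk_strictMono.monotone (bot_le : (⊥ : P.Face) ≤ x)
  omega

lemma rk_top (P : Polytope n) : P.rk ⊤ = n + 1 := by
  obtain ⟨A, -⟩ := (IsChain.empty (r := (· ≤ ·)) (α := P.Face)).exists_subset_flag
  obtain ⟨x, _, hx⟩ := flag_exists P.flag_ranks A (le_refl _)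
  have h1 := P.rk_strictMono.monotone (le_top : x ≤ ⊤)
  have h2 : P.rk ⊤ ∈ Set.Iic (n + 1) := by rw [← P.flag_ranks A]; exact ⟨⊤, A.top_mem, rfl⟩
  have h3 : P.rk ⊤ ≤ n + 1 := h2
  omega

lemma rk_le (P : Polytope n) (x : P.Face) : P.rk x ≤ n + 1 := by
  rw [← rk_top P]; exact P.rk_strictMono.monotone le_top

lemma eq_top_of_rk (P : Polytope n) {x : P.Face} (h : P.rk x = n + 1) : x = ⊤ := by
  by_contra hne
  have := P.rk_strictMono (lt_of_le_of_ne le_top hne)
  rw [rk_top] at this; omega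

lemma eq_bot_of_rk (P : Polytope n) {x : P.Face} (h : P.rk x = 0) : x = ⊥ := by
  by_contra hne
  have := P.rk_strictMono (lt_of_le_of_ne bot_le (Ne.symm hne))
  rw [rk_bot] at this; omega

/-- description of an adjacent flag -/
lemma adj_desc (P : Polytope n) {A B : Flag P.Face} (h : FlagAdj A B) :
    ∃ x y F G : P.Face, x ∈ A ∧ x ∉ B ∧ y ∈ B ∧ y ∉ A ∧ (A : Set P.Face) \ B = {x} ∧
      (B : Set P.Face) = insert y ((A : Set P.Face) \ {x}) ∧
      F ∈ A ∧ G ∈ A ∧ P.rk x = P.rk F + 1 ∧ P.rk G = P.rk x + 1 ∧ F < y ∧ y < G := by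
  obtain ⟨h1, h2⟩ := h
  obtain ⟨x, hx⟩ := Set.ncard_eq_one.mp h1
  obtain ⟨y, hy⟩ := Set.ncard_eq_one.mp h2
  have hx1 : x ∈ (A : Set P.Face) \ B := by rw [hx]; rfl
  have hy1 : y ∈ (B : Set P.Face) \ A := by rw [hy]; rfl
  have hm := P.rk_strictMono
  have hf := P.flag_ranks
  have hA : ∀ z ∈ A, z ≠ x → z ∈ B := by
    intro z hz hzx
    by_contra hzB
    have : z ∈ (A : Set P.Face) \ B := ⟨hz, hzB⟩
    rw [hx] at this
    exact hzx this
  have hB : ∀ z ∈ B, z ≠ y → z ∈ A := by
    intro z hz hzy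
    by_contra hzA
    have : z ∈ (B : Set P.Face) \ A := ⟨hz, hzA⟩
    rw [hy] at this
    exact hzy this
  have hrk : P.rk x = P.rk y := by
    obtain ⟨z, hz, hzx⟩ := flag_exists hf B (rk_le P x)
    by_cases hzy : z = y
    · rw [← hzx, hzy]
    · have hzA := hB z hz hzy
      have : z = x := flag_unique hm A hzA hx1.1 hzx
      exact (hx1.2 (this ▸ hz)).elim
  have hxb : x ≠ ⊥ := fun h => hx1.2 (h ▸ B.bot_mem)
  have hxt : x ≠ ⊤ := fun h => hx1.2 (h ▸ B.top_mem)
  have hr1 : 0 < P.rk x := by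
    rw [← rk_bot P]; exact hm (lt_of_le_of_ne bot_le (Ne.symm hxb))
  have hr2 : P.rk x < n + 1 := by
    rw [← rk_top P]; exact hm (lt_of_le_of_ne le_top hxt)
  obtain ⟨F, hF, hFr⟩ := flag_exists hf A (show P.rk x - 1 ≤ n + 1 by omega)
  obtain ⟨G, hG, hGr⟩ := flag_exists hf A (show P.rk x + 1 ≤ n + 1 by omega)
  have hFB : F ∈ B := hA F hF (by rintro rfl; omega)
  have hGB : G ∈ B := hA G hG (by rintro rfl; omega)
  refine ⟨x, y, F, G, hx1.1, hx1.2, hy1.1, hy1.2, hx, ?_, hF, hG, by omega, by omega,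
    flag_lt hm B hFB hy1.1 (by omega), flag_lt hm B hy1.1 hGB (by omega)⟩
  ext z
  constructor
  · intro hz
    by_cases hzy : z = y
    · rw [hzy]; exact Set.mem_insert _ _
    · refine Set.mem_insert_of_mem _ ⟨hB z hz hzy, ?_⟩
      rintro rfl
      exact hx1.2 hz
  · rintro (hz | ⟨hz1, hz2⟩)
    · rw [hz]; exact hy1.1
    · exact hA z hz1 hz2

/-- uniqueness of adjacent flags -/
lemma adj_unique (P : Polytope n) {A B C : Flag P.Face} (hB : FlagAdj A B) (hC : FlagAdj A C)
    {x : P.Face} (hxB : x ∉ B) (hxC : x ∉ C) (hxA : x ∈ A) : B = C := by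
  obtain ⟨x1, y, F, G, hx1, hx2, hy1, hy2, hd, hBeq, hF, hG, hFr, hGr, hFy, hyG⟩ := adj_desc P hB
  obtain ⟨x1', y', F', G', hx1', hx2', hy1', hy2', hd', hCeq, hF', hG', hFr', hGr', hFy', hyG'⟩ :=
    adj_desc P hC
  have hm := P.rk_strictMono
  have e1 : x1 = x := by
    have : x ∈ (A : Set P.Face) \ B := ⟨hxA, hxB⟩
    rw [hd] at this; exact this.symm
  have e2 : x1' = x := by
    have : x ∈ (A : Set P.Face) \ C := ⟨hxA, hxC⟩
    rw [hd'] at this; exact this.symm
  subst e1
  subst e2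
  have e3 : F = F' := flag_unique hm A hF hF' (by omega)
  have e4 : G = G' := flag_unique hm A hG hG' (by omega)
  subst e3
  subst e4
  have hFx : F < x1' := flag_lt hm A hF hx1 (by omega)
  have hxG : x1' < G := flag_lt hm A hx1 hG (by omega)
  have hcard := P.diamond F G (hFx.trans hxG) (by omega)
  have hyx : y ≠ x1' := fun h => hy2 (h ▸ hx1)
  have hyx' : y' ≠ x1' := fun h => hy2' (h ▸ hx1)
  have hyy : y = y' := by
    by_contra hne
    have hsub : ({x1', y, y'} : Set P.Face) ⊆ Set.Ioo F G := by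
      rintro z (rfl | rfl | rfl)
      · exact ⟨hFx, hxG⟩
      · exact ⟨hFy, hyG⟩
      · exact ⟨hFy', hyG'⟩
    have h3 : ({x1', y, y'} : Set P.Face).ncard = 3 := by
      rw [Set.ncard_eq_three]
      exact ⟨x1', y, y', hyx.symm, hyx'.symm, hne, rfl⟩
    have h4 := Set.ncard_le_ncard hsub (Set.finite_of_ncard_ne_zero (by rw [hcard]; norm_num))
    omega
  apply SetLike.coe_injective
  rw [hBeq, hCeq, hyy]

lemma image_flag {U R : Polytope n} {π : U.Face → R.Face} (hπ : IsCovering U R π)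
    (A : Flag U.Face) : ∃ A' : Flag R.Face, (A' : Set R.Face) = π '' A := by
  apply chain_is_flag R.rk_strictMono R.flag_ranks
  · rintro _ ⟨x, hx, rfl⟩ _ ⟨y, hy, rfl⟩ _
    rcases A.le_or_le hx hy with h | h
    · exact Or.inl (hπ.mono h)
    · exact Or.inr (hπ.mono h)
  · intro i hi
    obtain ⟨x, hx, hxi⟩ := flag_exists U.flag_ranks A hi
    exact ⟨π x, ⟨x, hx, rfl⟩, by rw [hπ.rank, hxi]⟩

/-- lifting flags along a covering, fixing a part of a flag -/
lemma lift_flag {U R : Polytope n} {π : U.Face → R.Face} (hπ : IsCovering U R π)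
    (A : Flag U.Face) (S : Set U.Face) (hS : S ⊆ A) (B' : Flag R.Face) (hB' : π '' S ⊆ B') :
    ∃ B : Flag U.Face, S ⊆ B ∧ π '' (B : Set U.Face) = B' := by
  obtain ⟨A', hA'⟩ := image_flag hπ A
  have hpath := R.connected A' B'
  have hSA' : π '' S ⊆ (A' : Set R.Face) ∩ B' := by
    intro z hz
    refine ⟨?_, hB' hz⟩
    rw [hA']
    exact Set.image_mono hS hz
  have claim : ∀ C' : Flag R.Face, Relation.ReflTransGen
      (fun C D : Flag R.Face => FlagAdj C D ∧ (A' : Set R.Face) ∩ B' ⊆ D) A' C' →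
      ∃ C : Flag U.Face, S ⊆ C ∧ π '' (C : Set U.Face) = C' := by
    intro C' hC'
    induction hC' with
    | refl => exact ⟨A, hS, hA'.symm⟩
    | tail _ hstep ih =>
      rename_i C' D' _
      obtain ⟨C, hSC, hC⟩ := ih
      obtain ⟨hadj, hsub⟩ := hstep
      obtain ⟨x', y', F', G', hx1, hx2, hy1, hy2, hd, hDeq, hF', hG', hFr, hGr, hFy, hyG⟩ :=
        adj_desc R hadj
      have hx1' : x' ∈ π '' (C : Set U.Face) := by rw [hC]; exact hx1
      obtain ⟨x, hxC, rfl⟩ := hx1'
      have hxS : x ∉ S := fun h => hx2 (hsub (hSA' ⟨x, h, rfl⟩))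
      have hF1 : F' ∈ π '' (C : Set U.Face) := by rw [hC]; exact hF'
      have hG1 : G' ∈ π '' (C : Set U.Face) := by rw [hC]; exact hG'
      obtain ⟨F, hFC, rfl⟩ := hF1
      obtain ⟨G, hGC, rfl⟩ := hG1
      rw [hπ.rank, hπ.rank] at hFr hGr
      have hm := U.rk_strictMono
      have hFx : F < x := flag_lt hm C hFC hxC (by omega)
      have hxG : x < G := flag_lt hm C hxC hGC (by omega)
      have hcard := U.diamond F G (hFx.trans hxG) (by omega)
      obtain ⟨y, hyI, hyx⟩ : ∃ y ∈ Set.Ioo F G, y ≠ x := by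
        apply Set.exists_ne_of_one_lt_ncard
        omega
      obtain ⟨D, hD, hadjD, hyC⟩ := exchange hm U.flag_ranks C hxC hFC hGC (by omega) (by omega)
        hyI.1 hyI.2 hyx.symm
      obtain ⟨C'', D'', hC'', hD'', hadj''⟩ := hπ.adj C D hadjD
      have hCC : C'' = C' := by
        apply SetLike.coe_injective
        rw [hC'', hC]
      subst hCC
      have hxD'' : π x ∉ D'' := by
        intro hmem
        have hall : (C'' : Set R.Face) ⊆ D'' := by
          intro z hz
          rw [← hC] at hz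
          obtain ⟨w, hw, rfl⟩ := hz
          by_cases hwx : w = x
          · rw [hwx]; exact hmem
          · rw [hD'']
            refine ⟨w, ?_, rfl⟩
            rw [hD]
            exact Set.mem_insert_of_mem _ ⟨hw, hwx⟩
        have h0 : (C'' : Set R.Face) \ D'' = ∅ := Set.sdiff_eq_empty.mpr hall
        have h1 := hadj''.1
        rw [h0, Set.ncard_empty] at h1
        omega
      have heq : D'' = D' := adj_unique R hadj'' hadj hxD'' hx2 hx1
      refine ⟨D, ?_, ?_⟩
      · intro s hs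
        rw [hD]
        refine Set.mem_insert_of_mem _ ⟨hSC hs, ?_⟩
        rintro rfl
        exact hxS hs
      · rw [← hD'', heq]
  exact claim B' hpath

/-- lifting a pair of comparable faces inside a section -/
lemma lift_pair {U R : Polytope n} {π : U.Face → R.Face} (hπ : IsCovering U R π)
    {F G : U.Face} (hFG : F ≤ G) {y₁ y₂ : R.Face} (h1 : π F ≤ y₁) (h12 : y₁ ≤ y₂)
    (h2 : y₂ ≤ π G) : ∃ x₁ x₂ : U.Face, F ≤ x₁ ∧ x₁ ≤ x₂ ∧ x₂ ≤ G ∧ π x₁ = y₁ ∧ π x₂ = y₂ := by
  have hc : IsChain (· ≤ ·) ({F, G} : Set U.Face) := by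
    rintro a (rfl | rfl) b (rfl | rfl) _
    · exact Or.inl le_rfl
    · exact Or.inl hFG
    · exact Or.inr hFG
    · exact Or.inl le_rfl
  obtain ⟨A, hA⟩ := hc.exists_subset_flag
  have hc' : IsChain (· ≤ ·) ({π F, y₁, y₂, π G} : Set R.Face) := by
    have a1 := h1.trans h12
    have a2 := h12.trans h2
    have a3 := a1.trans h2
    rintro a (rfl | rfl | rfl | rfl) b (rfl | rfl | rfl | rfl) _ <;>
      first | exact Or.inl (by assumption) | exact Or.inr (by assumption) | exact Or.inl le_rfl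
  obtain ⟨B', hB'⟩ := hc'.exists_subset_flag
  obtain ⟨B, hSB, hB⟩ := lift_flag hπ A {F, G} hA B' (by
    rintro _ ⟨z, (rfl | rfl), rfl⟩
    · exact hB' (by simp)
    · exact hB' (by simp))
  have hF : F ∈ B := hSB (by simp)
  have hG : G ∈ B := hSB (by simp)
  have hy1 : y₁ ∈ π '' (B : Set U.Face) := by rw [hB]; exact hB' (by simp)
  have hy2 : y₂ ∈ π '' (B : Set U.Face) := by rw [hB]; exact hB' (by simp)
  obtain ⟨x₁, hx₁, rfl⟩ := hy1
  obtain ⟨x₂, hx₂, rfl⟩ := hy2
  have r1 := R.rk_strictMono.monotone h1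
  have r2 := R.rk_strictMono.monotone h12
  have r3 := R.rk_strictMono.monotone h2
  rw [hπ.rank, hπ.rank] at r1 r2 r3
  exact ⟨x₁, x₂, flag_le U.rk_strictMono B hF hx₁ r1, flag_le U.rk_strictMono B hx₁ hx₂ r2,
    flag_le U.rk_strictMono B hx₂ hG r3, rfl, rfl⟩

lemma cover_injOn {U R : Polytope n} {π : U.Face → R.Face} (hπ : IsCovering U R π)
    {F G : U.Face} (hFG : F ≤ G) (hfin : (Set.Icc F G).Finite)
    (hcard : (Set.Icc (π F) (π G)).ncard = (Set.Icc F G).ncard) :
    Set.InjOn π (Set.Icc F G) := by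
  apply Set.injOn_of_ncard_image_eq _ hfin
  rw [← hcard]
  congr 1
  apply Set.Subset.antisymm
  · rintro _ ⟨x, hx, rfl⟩
    exact ⟨hπ.mono hx.1, hπ.mono hx.2⟩
  · intro y hy
    obtain ⟨x₁, x₂, a1, a2, a3, a4, _⟩ := lift_pair hπ hFG hy.1 le_rfl hy.2
    exact ⟨x₁, ⟨a1, a2.trans a3⟩, a4⟩

lemma cover_reflect {U R : Polytope n} {π : U.Face → R.Face} (hπ : IsCovering U R π)
    {F G : U.Face} (hFG : F ≤ G) (hinj : Set.InjOn π (Set.Icc F G))
    {x y : U.Face} (hx : x ∈ Set.Icc F G) (hy : y ∈ Set.Icc F G) (hxy : π x ≤ π y) : x ≤ y := by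
  obtain ⟨x₁, x₂, a1, a2, a3, a4, a5⟩ := lift_pair hπ hFG (hπ.mono hx.1) hxy (hπ.mono hy.2)
  have e1 : x₁ = x := hinj ⟨a1, a2.trans a3⟩ hx a4
  have e2 : x₂ = y := hinj ⟨a1.trans a2, a3⟩ hy a5
  rw [← e1, ← e2]; exact a2

lemma cover_lt {U R : Polytope n} {π : U.Face → R.Face} (hπ : IsCovering U R π)
    {x y : U.Face} (h : x < y) : π x < π y := by
  refine lt_of_le_of_ne (hπ.mono h.le) ?_
  intro he
  have h1 := U.rk_strictMono h
  rw [← hπ.rank, ← hπ.rank, he] at h1
  omega

lemma cover_Ioo {U R : Polytope n} {π : U.Face → R.Face} (hπ : IsCovering U R π)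
    {F G : U.Face} (hFG : F ≤ G) (hinj : Set.InjOn π (Set.Icc F G))
    {a b : U.Face} (ha : a ∈ Set.Icc F G) (hb : b ∈ Set.Icc F G) :
    (Set.Ioo (π a) (π b)).ncard = (Set.Ioo a b).ncard := by
  have hsub : Set.Ioo a b ⊆ Set.Icc F G := fun x hx =>
    ⟨ha.1.trans hx.1.le, hx.2.le.trans hb.2⟩
  rw [← (hinj.mono hsub).ncard_image]
  congr 1
  apply Set.Subset.antisymm
  · intro y hy
    obtain ⟨x₁, x₂, a1, a2, a3, a4, _⟩ := lift_pair hπ hFG ((hπ.mono ha.1).trans hy.1.le) le_rfl
      (hy.2.le.trans (hπ.mono hb.2))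
    have hx : x₁ ∈ Set.Icc F G := ⟨a1, a2.trans a3⟩
    refine ⟨x₁, ⟨?_, ?_⟩, a4⟩
    · apply lt_of_le_of_ne (cover_reflect hπ hFG hinj ha hx (by rw [a4]; exact hy.1.le))
      rintro rfl
      rw [a4] at hy; exact lt_irrefl _ hy.1
    · apply lt_of_le_of_ne (cover_reflect hπ hFG hinj hx hb (by rw [a4]; exact hy.2.le))
      rintro rfl
      rw [a4] at hy; exact lt_irrefl _ hy.2
  · rintro _ ⟨x, hx, rfl⟩
    exact ⟨cover_lt hπ hx.1, cover_lt hπ hx.2⟩

lemma cover_bot {U R : Polytope n} {π : U.Face → R.Face} (hπ : IsCovering U R π) : π ⊥ = ⊥ := by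
  apply eq_bot_of_rk; rw [hπ.rank, rk_bot]

lemma cover_top {U R : Polytope n} {π : U.Face → R.Face} (hπ : IsCovering U R π) : π ⊤ = ⊤ := by
  apply eq_top_of_rk; rw [hπ.rank, rk_top]

end basics


section amalg

variable {n : ℕ}

lemma facet_ncard {P Q : Polytope n} {R : Polytope (n + 1)} (h : IsAmalgamation P Q R)
    {F : R.Face} (hF : R.rk F = n + 1) : (Set.Icc ⊥ F).ncard = Nat.card P.Face := by
  obtain ⟨e⟩ := h.facets F hF
  rw [Set.Icc_bot, ← Nat.card_coe_set_eq]
  exact Nat.card_congr e.toEquiv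

lemma facet_finite {P Q : Polytope n} [Finite P.Face] {R : Polytope (n + 1)}
    (h : IsAmalgamation P Q R) {F : R.Face} (hF : R.rk F = n + 1) : (Set.Icc ⊥ F).Finite := by
  obtain ⟨e⟩ := h.facets F hF
  rw [Set.Icc_bot, ← Set.finite_coe_iff]
  exact Finite.of_equiv _ e.symm.toEquiv

lemma vertex_ncard {P Q : Polytope n} {R : Polytope (n + 1)} (h : IsAmalgamation P Q R)
    {v : R.Face} (hv : R.rk v = 1) : (Set.Icc v ⊤).ncard = Nat.card Q.Face := by
  obtain ⟨e⟩ := h.vertexFigures v hv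
  rw [Set.Icc_top, ← Nat.card_coe_set_eq]
  exact Nat.card_congr e.toEquiv

lemma vertex_finite {P Q : Polytope n} [Finite Q.Face] {R : Polytope (n + 1)}
    (h : IsAmalgamation P Q R) {v : R.Face} (hv : R.rk v = 1) : (Set.Icc v ⊤).Finite := by
  obtain ⟨e⟩ := h.vertexFigures v hv
  rw [Set.Icc_top, ← Set.finite_coe_iff]
  exact Finite.of_equiv _ e.symm.toEquiv

lemma cover_facet_inj {P Q : Polytope n} [Finite P.Face] {U R : Polytope (n + 1)}
    (hU : IsAmalgamation P Q U) (hR : IsAmalgamation P Q R) {π : U.Face → R.Face}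
    (hπ : IsCovering U R π) {F : U.Face} (hF : U.rk F = n + 1) :
    Set.InjOn π (Set.Icc ⊥ F) := by
  apply cover_injOn hπ bot_le (facet_finite hU hF)
  rw [cover_bot hπ, facet_ncard hU hF, facet_ncard hR (by rw [hπ.rank, hF])]

lemma cover_vertex_inj {P Q : Polytope n} [Finite Q.Face] {U R : Polytope (n + 1)}
    (hU : IsAmalgamation P Q U) (hR : IsAmalgamation P Q R) {π : U.Face → R.Face}
    (hπ : IsCovering U R π) {v : U.Face} (hv : U.rk v = 1) :
    Set.InjOn π (Set.Icc v ⊤) := by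
  apply cover_injOn hπ le_top (vertex_finite hU hv)
  rw [cover_top hπ, vertex_ncard hU hv, vertex_ncard hR (by rw [hπ.rank, hv])]

end amalg

/-- the local configuration that distinguishes the two amalgamations -/
def Special (R : Polytope 4) : Prop :=
  ∃ v v' e f F F' : R.Face, R.rk v = 1 ∧ R.rk v' = 1 ∧ R.rk e = 2 ∧ R.rk f = 3 ∧ R.rk F = 4 ∧
    R.rk F' = 4 ∧ v < e ∧ v' < e ∧ e < f ∧ f < F ∧ f < F' ∧ v ≠ v' ∧ F ≠ F' ∧
    (Set.Ioo v F).ncard ≠ 4 ∧ (Set.Ioo v' F).ncard = 4 ∧ (Set.Ioo v F').ncard = 4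

lemma special_push {P Q : Polytope 3} [Finite P.Face] [Finite Q.Face] {U R : Polytope 4}
    (hU : IsAmalgamation P Q U) (hR : IsAmalgamation P Q R) {π : U.Face → R.Face}
    (hπ : IsCovering U R π) (h : Special U) : Special R := by
  obtain ⟨v, v', e, f, F, F', h1, h2, h3, h4, h5, h6, h7, h8, h9, h10, h11, h12, h13, h14, h15,
    h16⟩ := h
  have iF := cover_facet_inj hU hR hπ h5
  have iF' := cover_facet_inj hU hR hπ h6
  have iv := cover_vertex_inj hU hR hπ h1
  have vF : v ≤ F := (h7.trans (h9.trans h10)).le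
  have v'F : v' ≤ F := (h8.trans (h9.trans h10)).le
  have vF' : v ≤ F' := (h7.trans (h9.trans h11)).le
  refine ⟨π v, π v', π e, π f, π F, π F', by rw [hπ.rank, h1], by rw [hπ.rank, h2],
    by rw [hπ.rank, h3], by rw [hπ.rank, h4], by rw [hπ.rank, h5], by rw [hπ.rank, h6],
    cover_lt hπ h7, cover_lt hπ h8, cover_lt hπ h9, cover_lt hπ h10, cover_lt hπ h11,
    ?_, ?_, ?_, ?_, ?_⟩
  · exact fun he => h12 (iF ⟨bot_le, vF⟩ ⟨bot_le, v'F⟩ he)
  · exact fun he => h13 (iv ⟨vF, le_top⟩ ⟨vF', le_top⟩ he)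
  · rw [cover_Ioo hπ bot_le iF ⟨bot_le, vF⟩ ⟨bot_le, le_rfl⟩]; exact h14
  · rw [cover_Ioo hπ bot_le iF ⟨bot_le, v'F⟩ ⟨bot_le, le_rfl⟩]; exact h15
  · rw [cover_Ioo hπ bot_le iF' ⟨bot_le, vF'⟩ ⟨bot_le, le_rfl⟩]; exact h16

lemma special_pull {P Q : Polytope 3} [Finite P.Face] [Finite Q.Face] {U R : Polytope 4}
    (hU : IsAmalgamation P Q U) (hR : IsAmalgamation P Q R) {π : U.Face → R.Face}
    (hπ : IsCovering U R π) (h : Special R) : Special U := by
  obtain ⟨v, v', e, f, F, F', h1, h2, h3, h4, h5, h6, h7, h8, h9, h10, h11, h12, h13, h14, h15,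
    h16⟩ := h
  obtain ⟨A, -⟩ := (IsChain.empty (r := (· ≤ ·)) (α := U.Face)).exists_subset_flag
  have hc' : IsChain (· ≤ ·) ({v, e, f, F} : Set R.Face) := by
    have a1 := h7.le
    have a2 := h9.le
    have a3 := h10.le
    have a4 := a1.trans a2
    have a5 := a2.trans a3
    have a6 := a1.trans a5
    rintro a (rfl | rfl | rfl | rfl) b (rfl | rfl | rfl | rfl) _ <;>
      first | exact Or.inl (by assumption) | exact Or.inr (by assumption) | exact Or.inl le_rfl
  obtain ⟨B', hB'⟩ := hc'.exists_subset_flag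
  obtain ⟨B, -, hB⟩ := lift_flag hπ A ∅ (Set.empty_subset _) B' (by simp)
  have k1 : v ∈ π '' (B : Set U.Face) := by rw [hB]; exact hB' (by simp)
  have k2 : e ∈ π '' (B : Set U.Face) := by rw [hB]; exact hB' (by simp)
  have k3 : f ∈ π '' (B : Set U.Face) := by rw [hB]; exact hB' (by simp)
  have k4 : F ∈ π '' (B : Set U.Face) := by rw [hB]; exact hB' (by simp)
  obtain ⟨v, hv, rfl⟩ := k1
  obtain ⟨e, he, rfl⟩ := k2
  obtain ⟨f, hf, rfl⟩ := k3
  obtain ⟨F, hF, rfl⟩ := k4
  rw [hπ.rank] at h1 h3 h4 h5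
  have hm := U.rk_strictMono
  have ve : v < e := flag_lt hm B hv he (by omega)
  have ef : e < f := flag_lt hm B he hf (by omega)
  have fF : f < F := flag_lt hm B hf hF (by omega)
  have vf := ve.trans ef
  have vF := vf.trans fF
  have iF := cover_facet_inj hU hR hπ h5
  have iv := cover_vertex_inj hU hR hπ h1
  obtain ⟨w, w2, -, hw2, hw3, hw4, -⟩ := lift_pair hπ (bot_le : (⊥ : U.Face) ≤ e)
    (y₁ := v') (y₂ := v') (by rw [cover_bot hπ]; exact bot_le) le_rfl h8.le
  have hwe : w ≤ e := hw2.trans hw3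
  subst hw4
  obtain ⟨G, G2, hG1, hG2, -, hG4, -⟩ := lift_pair hπ (le_top : f ≤ ⊤)
    (y₁ := F') (y₂ := F') h11.le le_rfl (by rw [cover_top hπ]; exact le_top)
  subst hG4
  rw [hπ.rank] at h2 h6
  have hwe' : w < e := lt_of_le_of_ne hwe (by rintro rfl; omega)
  have hfG : f < G := lt_of_le_of_ne hG1 (by rintro rfl; omega)
  have iG := cover_facet_inj hU hR hπ h6
  refine ⟨v, w, e, f, F, G, h1, h2, h3, h4, h5, h6, ve, hwe', ef, fF, hfG, ?_, ?_, ?_, ?_, ?_⟩
  · rintro rfl; exact h12 rfl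
  · rintro rfl; exact h13 rfl
  · rw [← cover_Ioo hπ bot_le iF ⟨bot_le, vF.le⟩ ⟨bot_le, le_rfl⟩]; exact h14
  · rw [← cover_Ioo hπ bot_le iF ⟨bot_le, (hwe'.trans (ef.trans fF)).le⟩ ⟨bot_le, le_rfl⟩]
    exact h15
  · rw [← cover_Ioo hπ bot_le iG ⟨bot_le, (vf.trans hfG).le⟩ ⟨bot_le, le_rfl⟩]; exact h16

section types

variable {n : ℕ}

lemma rk_le_of_strictMono {P P' : Polytope n} {f : P.Face → P'.Face} (hf : StrictMono f)
    (x : P.Face) : P.rk x ≤ P'.rk (f x) := by
  have key : ∀ k : ℕ, ∀ x : P.Face, P.rk x = k → k ≤ P'.rk (f x) := by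
    intro k
    induction k with
    | zero => intro x _; exact Nat.zero_le _
    | succ k ih =>
      intro x hx
      obtain ⟨A, hA⟩ := (IsChain.singleton (r := (· ≤ ·)) (a := x)).exists_subset_flag
      have hxA : x ∈ A := hA rfl
      obtain ⟨y, hy, hyk⟩ := flag_exists P.flag_ranks A (show k ≤ n + 1 by
        have := rk_le P x; omega)
      have h1 := ih y hyk
      have h2 := P'.rk_strictMono (hf (flag_lt P.rk_strictMono A hy hxA (by omega)))
      omega
  exact key _ x rfl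

lemma rk_orderIso {P P' : Polytope n} (e : P.Face ≃o P'.Face) (x : P.Face) :
    P'.rk (e x) = P.rk x := by
  have h1 := rk_le_of_strictMono e.strictMono x
  have h2 := rk_le_of_strictMono e.symm.strictMono (e x)
  rw [e.symm_apply_apply] at h2
  omega

lemma rk_facetIso {P : Polytope n} {R : Polytope (n + 1)} {F : R.Face} (hF : R.rk F = n + 1)
    (e : Set.Iic F ≃o P.Face) (x : Set.Iic F) : P.rk (e x) = R.rk x := by
  have key1 : ∀ k : ℕ, ∀ x : Set.Iic F, R.rk x = k → k ≤ P.rk (e x) := by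
    intro k
    induction k with
    | zero => intro x _; exact Nat.zero_le _
    | succ k ih =>
      intro x hx
      obtain ⟨A, hA⟩ := (IsChain.singleton (r := (· ≤ ·)) (a := (x : R.Face))).exists_subset_flag
      have hxA : (x : R.Face) ∈ A := hA rfl
      obtain ⟨y, hy, hyk⟩ := flag_exists R.flag_ranks A (show k ≤ n + 1 + 1 by
        have := rk_le R (x : R.Face); omega)
      have hyx : y < x := flag_lt R.rk_strictMono A hy hxA (by omega)
      have h1 := ih ⟨y, hyx.le.trans x.2⟩ hyk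
      have h2 := P.rk_strictMono (e.strictMono (show (⟨y, hyx.le.trans x.2⟩ : Set.Iic F) < x from hyx))
      omega
  have key2 : ∀ k : ℕ, ∀ p : P.Face, P.rk p = k → k ≤ R.rk (e.symm p : R.Face) := by
    intro k
    induction k with
    | zero => intro x _; exact Nat.zero_le _
    | succ k ih =>
      intro p hp
      obtain ⟨A, hA⟩ := (IsChain.singleton (r := (· ≤ ·)) (a := p)).exists_subset_flag
      have hpA : p ∈ A := hA rfl
      obtain ⟨q, hq, hqk⟩ := flag_exists P.flag_ranks A (show k ≤ n + 1 by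
        have := rk_le P p; omega)
      have hqp : q < p := flag_lt P.rk_strictMono A hq hpA (by omega)
      have h1 := ih q hqk
      have h2 : (e.symm q : R.Face) < e.symm p := e.symm.strictMono hqp
      have h3 := R.rk_strictMono h2
      omega
  have h1 := key1 _ x rfl
  have h2 := key2 _ (e x) rfl
  rw [e.symm_apply_apply] at h2
  omega

lemma rk_vertexIso {Q : Polytope n} {R : Polytope (n + 1)} {v : R.Face} (hv : R.rk v = 1)
    (e : Set.Ici v ≃o Q.Face) (x : Set.Ici v) : Q.rk (e x) + 1 = R.rk x := by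
  have key1 : ∀ k : ℕ, ∀ x : Set.Ici v, R.rk x = k + 1 → k ≤ Q.rk (e x) := by
    intro k
    induction k with
    | zero => intro x _; exact Nat.zero_le _
    | succ k ih =>
      intro x hx
      have hc : IsChain (· ≤ ·) ({v, (x : R.Face)} : Set R.Face) := by
        have := x.2
        rintro a (rfl | rfl) b (rfl | rfl) _
        · exact Or.inl le_rfl
        · exact Or.inl this
        · exact Or.inr this
        · exact Or.inl le_rfl
      obtain ⟨A, hA⟩ := hc.exists_subset_flag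
      have hvA : v ∈ A := hA (by simp)
      have hxA : (x : R.Face) ∈ A := hA (by simp)
      obtain ⟨y, hy, hyk⟩ := flag_exists R.flag_ranks A (show k + 1 ≤ n + 1 + 1 by
        have := rk_le R (x : R.Face); omega)
      have hyx : y < x := flag_lt R.rk_strictMono A hy hxA (by omega)
      have hvy : v ≤ y := flag_le R.rk_strictMono A hvA hy (by omega)
      have h1 := ih ⟨y, hvy⟩ hyk
      have h2 := Q.rk_strictMono (e.strictMono (show (⟨y, hvy⟩ : Set.Ici v) < x from hyx))
      omega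
  have key2 : ∀ k : ℕ, ∀ p : Q.Face, Q.rk p = k → k + 1 ≤ R.rk (e.symm p : R.Face) := by
    intro k
    induction k with
    | zero =>
      intro p _
      have : v ≤ (e.symm p : R.Face) := (e.symm p).2
      have := R.rk_strictMono.monotone this
      omega
    | succ k ih =>
      intro p hp
      obtain ⟨A, hA⟩ := (IsChain.singleton (r := (· ≤ ·)) (a := p)).exists_subset_flag
      have hpA : p ∈ A := hA rfl
      obtain ⟨q, hq, hqk⟩ := flag_exists Q.flag_ranks A (show k ≤ n + 1 by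
        have := rk_le Q p; omega)
      have hqp : q < p := flag_lt Q.rk_strictMono A hq hpA (by omega)
      have h1 := ih q hqk
      have h2 : (e.symm q : R.Face) < e.symm p := e.symm.strictMono hqp
      have h3 := R.rk_strictMono h2
      omega
  have h0 : R.rk v ≤ R.rk (x : R.Face) := R.rk_strictMono.monotone x.2
  have h1 := key1 (R.rk (x : R.Face) - 1) x (by omega)
  have h2 := key2 _ (e x) rfl
  rw [e.symm_apply_apply] at h2
  omega

lemma ncard_Ioo_facet {P : Polytope n} {R : Polytope (n + 1)} {F : R.Face}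
    (e : Set.Iic F ≃o P.Face) (x : Set.Iic F) :
    (Set.Ioo (x : R.Face) F).ncard = (Set.Ioo (e x) ⊤).ncard := by
  symm
  apply Set.ncard_congr (fun p _ => (e.symm p : R.Face))
  · intro p hp
    have h1 : (x : Set.Iic F) < e.symm p := by rw [e.lt_symm_apply]; exact hp.1
    have h2 : e.symm p < ⟨F, le_rfl⟩ := by
      rw [e.symm_apply_lt]
      refine lt_of_lt_of_le hp.2 ?_
      rw [← e.symm_apply_le]
      exact (e.symm ⊤).2
    exact ⟨h1, h2⟩
  · intro p q _ _ h
    exact e.symm.injective (Subtype.ext h)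
  · intro y hy
    refine ⟨e ⟨y, hy.2.le⟩, ⟨?_, ?_⟩, by simp⟩
    · rw [e.lt_iff_lt]; exact hy.1
    · refine lt_of_lt_of_le (b := e ⟨F, le_rfl⟩) ?_ le_top
      rw [e.lt_iff_lt]; exact hy.2

lemma ncard_Ioo_vertex {Q : Polytope n} {R : Polytope (n + 1)} {v : R.Face}
    (e : Set.Ici v ≃o Q.Face) (x : Set.Ici v) :
    (Set.Ioo v (x : R.Face)).ncard = (Set.Ioo ⊥ (e x)).ncard := by
  symm
  apply Set.ncard_congr (fun p _ => (e.symm p : R.Face))
  · intro p hp
    have h1 : e.symm p < x := by rw [e.symm_apply_lt]; exact hp.2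
    have h2 : (⟨v, le_rfl⟩ : Set.Ici v) < e.symm p := by
      rw [e.lt_symm_apply]
      refine lt_of_le_of_lt ?_ hp.1
      rw [← e.le_symm_apply]
      exact (e.symm ⊥).2
    exact ⟨h2, h1⟩
  · intro p q _ _ h
    exact e.symm.injective (Subtype.ext h)
  · intro y hy
    refine ⟨e ⟨y, hy.1.le⟩, ⟨?_, ?_⟩, by simp⟩
    · refine lt_of_le_of_lt (b := e ⟨v, le_rfl⟩) bot_le ?_
      rw [e.lt_iff_lt]; exact hy.1
    · rw [e.lt_iff_lt]; exact hy.2

/-- rootedness for facets is the digon condition -/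
lemma facetType_iff {P Q : Polytope n} {R : Polytope (n + 1)} (hR : IsAmalgamation P Q R)
    (Φ : Flag P.Face) (hn : 1 ≤ n)
    (hP : ∀ B : Flag P.Face, ∀ v ∈ B, P.rk v = 1 → ((Set.Ioo v ⊤).ncard = 4 ↔
      ∃ a : P.Face ≃o P.Face, ∀ x, x ∈ B ↔ a x ∈ Φ))
    (A : Flag R.Face) {v F : R.Face} (hv : v ∈ A) (hF : F ∈ A) (hv1 : R.rk v = 1)
    (hFn : R.rk F = n + 1) : FacetType P Φ R A ↔ (Set.Ioo v F).ncard = 4 := by
  have hvF : v ≤ F := flag_le R.rk_strictMono A hv hF (by omega)
  constructor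
  · rintro ⟨F', hF', hF'n, e, he⟩
    have hFF : F' = F := flag_unique R.rk_strictMono A hF' hF (by omega)
    subst hFF
    rw [ncard_Ioo_facet e ⟨v, hvF⟩]
    have h1 : e ⟨v, hvF⟩ ∈ Φ := (he ⟨v, hvF⟩).mp hv
    have h2 : P.rk (e ⟨v, hvF⟩) = 1 := by rw [rk_facetIso hF'n e]; exact hv1
    rw [hP Φ _ h1 h2]
    exact ⟨OrderIso.refl _, fun x => Iff.rfl⟩
  · intro hcard
    obtain ⟨e⟩ := hR.facets F hFn
    have hc : IsChain (· ≤ ·) {p : P.Face | (e.symm p : R.Face) ∈ A} := by
      intro p hp q hq _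
      rcases A.le_or_le hp hq with h | h
      · exact Or.inl (e.symm.le_iff_le.mp h)
      · exact Or.inr (e.symm.le_iff_le.mp h)
    obtain ⟨B, hB⟩ := chain_is_flag P.rk_strictMono P.flag_ranks hc (by
      intro i hi
      have hi' : i ≤ n + 1 := hi
      obtain ⟨x, hx, hxi⟩ := flag_exists R.flag_ranks A (show i ≤ n + 1 + 1 by omega)
      have hxF : x ≤ F := flag_le R.rk_strictMono A hx hF (by omega)
      refine ⟨e ⟨x, hxF⟩, ?_, ?_⟩
      · show (e.symm (e ⟨x, hxF⟩) : R.Face) ∈ A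
        rw [e.symm_apply_apply]; exact hx
      · rw [rk_facetIso hFn e]; exact hxi)
    have hmemB : ∀ x : Set.Iic F, (x : R.Face) ∈ A ↔ e x ∈ B := by
      intro x
      have h1 : (e x ∈ B) ↔ e x ∈ {p : P.Face | (e.symm p : R.Face) ∈ A} := by rw [← hB]; rfl
      rw [h1]
      show _ ↔ (e.symm (e x) : R.Face) ∈ A
      rw [e.symm_apply_apply]
    have h1 : e ⟨v, hvF⟩ ∈ B := (hmemB ⟨v, hvF⟩).mp hv
    have h2 : P.rk (e ⟨v, hvF⟩) = 1 := by rw [rk_facetIso hFn e]; exact hv1
    rw [ncard_Ioo_facet e ⟨v, hvF⟩, hP B _ h1 h2] at hcard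
    obtain ⟨a, ha⟩ := hcard
    exact ⟨F, hF, hFn, e.trans a, fun x => (hmemB x).trans (ha (e x))⟩

/-- rootedness for vertex-figures is the digon condition -/
lemma vertexType_iff {P Q : Polytope n} {R : Polytope (n + 1)} (hR : IsAmalgamation P Q R)
    (Ψ : Flag Q.Face) (hn : 1 ≤ n)
    (hQ : ∀ B : Flag Q.Face, ∀ G ∈ B, Q.rk G = n → ((Set.Ioo ⊥ G).ncard = 4 ↔
      ∃ a : Q.Face ≃o Q.Face, ∀ x, x ∈ B ↔ a x ∈ Ψ))
    (A : Flag R.Face) {v F : R.Face} (hv : v ∈ A) (hF : F ∈ A) (hv1 : R.rk v = 1)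
    (hFn : R.rk F = n + 1) : VertexType Q Ψ R A ↔ (Set.Ioo v F).ncard = 4 := by
  have hvF : v ≤ F := flag_le R.rk_strictMono A hv hF (by omega)
  constructor
  · rintro ⟨v', hv', hv'1, e, he⟩
    have hvv : v' = v := flag_unique R.rk_strictMono A hv' hv (by omega)
    subst hvv
    have h1 : e ⟨F, hvF⟩ ∈ Ψ := (he ⟨F, hvF⟩).mp hF
    have h2 : Q.rk (e ⟨F, hvF⟩) = n := by
      have := rk_vertexIso hv'1 e ⟨F, hvF⟩
      simp only at this
      omega
    rw [ncard_Ioo_vertex e ⟨F, hvF⟩, hQ Ψ _ h1 h2]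
    exact ⟨OrderIso.refl _, fun x => Iff.rfl⟩
  · intro hcard
    obtain ⟨e⟩ := hR.vertexFigures v hv1
    have hc : IsChain (· ≤ ·) {p : Q.Face | (e.symm p : R.Face) ∈ A} := by
      intro p hp q hq _
      rcases A.le_or_le hp hq with h | h
      · exact Or.inl (e.symm.le_iff_le.mp h)
      · exact Or.inr (e.symm.le_iff_le.mp h)
    obtain ⟨B, hB⟩ := chain_is_flag Q.rk_strictMono Q.flag_ranks hc (by
      intro i hi
      have hi' : i ≤ n + 1 := hi
      obtain ⟨x, hx, hxi⟩ := flag_exists R.flag_ranks A (show i + 1 ≤ n + 1 + 1 by omega)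
      have hxv : v ≤ x := flag_le R.rk_strictMono A hv hx (by omega)
      refine ⟨e ⟨x, hxv⟩, ?_, ?_⟩
      · show (e.symm (e ⟨x, hxv⟩) : R.Face) ∈ A
        rw [e.symm_apply_apply]; exact hx
      · have := rk_vertexIso hv1 e ⟨x, hxv⟩
        simp only at this
        omega)
    have hmemB : ∀ x : Set.Ici v, (x : R.Face) ∈ A ↔ e x ∈ B := by
      intro x
      have h1 : (e x ∈ B) ↔ e x ∈ {p : Q.Face | (e.symm p : R.Face) ∈ A} := by rw [← hB]; rfl
      rw [h1]
      show _ ↔ (e.symm (e x) : R.Face) ∈ A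
      rw [e.symm_apply_apply]
    have h1 : e ⟨F, hvF⟩ ∈ B := (hmemB ⟨F, hvF⟩).mp hF
    have h2 : Q.rk (e ⟨F, hvF⟩) = n := by
      have := rk_vertexIso hv1 e ⟨F, hvF⟩
      simp only at this
      omega
    rw [ncard_Ioo_vertex e ⟨F, hvF⟩, hQ B _ h1 h2] at hcard
    obtain ⟨a, ha⟩ := hcard
    exact ⟨v, hv, hv1, e.trans a, fun x => (hmemB x).trans (ha (e x))⟩

end types


/-! ### Finite posets given by lists -/

/-- the elements: pairs (shifted rank, set of proper faces below coded as a bit mask) -/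
abbrev El := ℕ × ℕ

def leB (x y : El) : Bool := Nat.beq (Nat.land x.2 y.2) x.2
def eqB (x y : El) : Bool := Nat.beq x.1 y.1 && Nat.beq x.2 y.2
def ltB (x y : El) : Bool := leB x y && !(Nat.beq x.2 y.2)
def mid (L : List El) (x y : El) : List El := L.filter (fun z => ltB x z && ltB z y)
def stepL (S T : List El) : List El := S.filter (fun z => T.any (fun w => leB z w || leB w z))
def reach (S : List El) : ℕ → List El → List El
  | 0, T => T
  | k + 1, T => reach S k (stepL S T)
def conn (S : List El) : Bool :=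
  S.all (fun z => (reach S 6 (S.take 1)).any (fun w => eqB z w))

lemma eqB_iff {x y : El} : eqB x y = true ↔ x = y := by
  unfold eqB
  rw [Bool.and_eq_true, Nat.beq_eq, Nat.beq_eq, Prod.ext_iff]

lemma leB_iff {x y : El} : leB x y = true ↔ Nat.land x.2 y.2 = x.2 := by
  unfold leB; rw [Nat.beq_eq]

lemma leB_refl (x : El) : leB x x = true := by
  rw [leB_iff]; exact Nat.and_self x.2

lemma leB_trans {x y z : El} (h1 : leB x y = true) (h2 : leB y z = true) : leB x z = true := by
  rw [leB_iff] at *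
  calc Nat.land x.2 z.2 = Nat.land (Nat.land x.2 y.2) z.2 := by rw [h1]
    _ = Nat.land x.2 (Nat.land y.2 z.2) := Nat.and_assoc x.2 y.2 z.2
    _ = x.2 := by rw [h2, h1]

lemma leB_antisymm {x y : El} (h1 : leB x y = true) (h2 : leB y x = true) : x.2 = y.2 := by
  rw [leB_iff] at *
  calc x.2 = Nat.land x.2 y.2 := h1.symm
    _ = Nat.land y.2 x.2 := Nat.and_comm x.2 y.2
    _ = y.2 := h2

/-- the conditions on a list that make it an abstract polytope -/
structure Good (n : ℕ) (L : List El) (b t : El) : Prop where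
  nodup : L.Nodup
  inj : ∀ x ∈ L, ∀ y ∈ L, x.2 = y.2 → x = y
  memb : b ∈ L
  memt : t ∈ L
  bot : ∀ x ∈ L, leB b x = true
  top : ∀ x ∈ L, leB x t = true
  rkb : b.1 = 0
  rkt : t.1 = n + 1
  rk : ∀ x ∈ L, ∀ y ∈ L, ltB x y = true → x.1 < y.1
  graded : ∀ x ∈ L, ∀ y ∈ L, ltB x y = true → x.1 + 2 ≤ y.1 → ∃ z ∈ L, ltB x z = true ∧ ltB z y = true
  diam : ∀ x ∈ L, ∀ y ∈ L, ltB x y = true → y.1 = x.1 + 2 → (mid L x y).length = 2
  sect : ∀ x ∈ L, ∀ y ∈ L, ltB x y = true → x.1 + 3 ≤ y.1 → conn (mid L x y) = true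

def chk (n : ℕ) (L : List El) (b t : El) : Bool :=
  decide L.Nodup &&
  (L.all fun x => L.all fun y => !(Nat.beq x.2 y.2) || eqB x y) &&
  L.any (fun x => eqB b x) && L.any (fun x => eqB t x) &&
  L.all (fun x => leB b x) && L.all (fun x => leB x t) &&
  Nat.beq b.1 0 && Nat.beq t.1 (n + 1) &&
  (L.all fun x => L.all fun y => !(ltB x y) || Nat.blt x.1 y.1) &&
  (L.all fun x => L.all fun y => !(ltB x y && Nat.ble (x.1 + 2) y.1) ||
    L.any (fun z => ltB x z && ltB z y)) &&
  (L.all fun x => L.all fun y => !(ltB x y && Nat.beq y.1 (x.1 + 2)) ||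
    Nat.beq (mid L x y).length 2) &&
  (L.all fun x => L.all fun y => !(ltB x y && Nat.ble (x.1 + 3) y.1) || conn (mid L x y))

lemma imp_of_or {a b : Bool} (h : (!a || b) = true) (ha : a = true) : b = true := by
  rw [ha] at h; simpa using h

lemma good_of_chk {n : ℕ} {L : List El} {b t : El} (h : chk n L b t = true) : Good n L b t := by
  unfold chk at h
  simp only [Bool.and_eq_true, decide_eq_true_eq, List.all_eq_true, List.any_eq_true,
    Nat.beq_eq] at h
  obtain ⟨⟨⟨⟨⟨⟨⟨⟨⟨⟨⟨h1, h2⟩, h3⟩, h4⟩, h5⟩, h6⟩, h7⟩, h8⟩, h9⟩, h10⟩, h11⟩, h12⟩ := h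
  refine ⟨h1, ?_, ?_, ?_, h5, h6, h7, h8, ?_, ?_, ?_, ?_⟩
  · intro x hx y hy hxy
    exact eqB_iff.mp (imp_of_or (h2 x hx y hy) (by rw [Nat.beq_eq]; exact hxy))
  · obtain ⟨x, hx, hbx⟩ := h3
    rw [eqB_iff] at hbx; rw [hbx]; exact hx
  · obtain ⟨x, hx, hbx⟩ := h4
    rw [eqB_iff] at hbx; rw [hbx]; exact hx
  · intro x hx y hy hxy
    have := imp_of_or (h9 x hx y hy) hxy
    rwa [Nat.blt_eq] at this
  · intro x hx y hy hxy hr
    have := imp_of_or (h10 x hx y hy) (by rw [Bool.and_eq_true, Nat.ble_eq]; exact ⟨hxy, hr⟩)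
    rw [List.any_eq_true] at this
    obtain ⟨z, hz, hz'⟩ := this
    rw [Bool.and_eq_true] at hz'
    exact ⟨z, hz, hz'⟩
  · intro x hx y hy hxy hr
    have := imp_of_or (h11 x hx y hy) (by rw [Bool.and_eq_true, Nat.beq_eq]; exact ⟨hxy, hr⟩)
    rwa [Nat.beq_eq] at this
  · intro x hx y hy hxy hr
    exact imp_of_or (h12 x hx y hy) (by rw [Bool.and_eq_true, Nat.ble_eq]; exact ⟨hxy, hr⟩)

/-- the type of elements of a list -/
def PF (L : List El) : Type := {x : El // x ∈ L}

instance (L : List El) : Finite (PF L) := by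
  unfold PF
  exact Finite.of_fintype _

/-- the order of the poset -/
@[instance_reducible] def ordPF {n : ℕ} {L : List El} {b t : El} (h : Good n L b t) : PartialOrder (PF L) where
  le x y := leB x.1 y.1 = true
  le_refl x := leB_refl x.1
  le_trans x y z h1 h2 := leB_trans h1 h2
  le_antisymm x y h1 h2 := Subtype.ext (h.inj _ x.2 _ y.2 (leB_antisymm h1 h2))

lemma ordPF_le {n : ℕ} {L : List El} {b t : El} (h : Good n L b t) (x y : PF L) :
    (ordPF h).le x y ↔ leB x.1 y.1 = true := Iff.rfl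

lemma ordPF_lt {n : ℕ} {L : List El} {b t : El} (h : Good n L b t) (x y : PF L) :
    (ordPF h).lt x y ↔ ltB x.1 y.1 = true := by
  let _ := ordPF h
  show x < y ↔ _
  rw [lt_iff_le_and_ne]
  unfold ltB
  rw [Bool.and_eq_true, Bool.not_eq_true', ← Bool.not_eq_true, Nat.beq_eq]
  constructor
  · rintro ⟨h1, h2⟩
    exact ⟨h1, fun he => h2 (Subtype.ext (h.inj _ x.2 _ y.2 he))⟩
  · rintro ⟨h1, h2⟩
    exact ⟨h1, fun he => h2 (by rw [he])⟩

lemma ncard_mid {n : ℕ} {L : List El} {b t : El} (h : Good n L b t) (x y : PF L) :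
    {z : PF L | (ordPF h).lt x z ∧ (ordPF h).lt z y}.ncard = (mid L x.1 y.1).length := by
  classical
  have h1 : (mid L x.1 y.1).Nodup := h.nodup.filter _
  rw [← List.toFinset_card_of_nodup h1, ← Set.ncard_coe_finset]
  apply Set.ncard_congr (fun z _ => z.1)
  · intro z hz
    simp only [List.coe_toFinset]
    show z.1 ∈ mid L x.1 y.1
    unfold mid
    rw [List.mem_filter, Bool.and_eq_true]
    exact ⟨z.2, (ordPF_lt h _ _).mp hz.1, (ordPF_lt h _ _).mp hz.2⟩
  · intro z w _ _ he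
    exact Subtype.ext he
  · intro z hz
    simp only [List.coe_toFinset] at hz
    have hz' : z ∈ mid L x.1 y.1 := hz
    unfold mid at hz'
    rw [List.mem_filter, Bool.and_eq_true] at hz'
    exact ⟨⟨z, hz'.1⟩, ⟨(ordPF_lt h _ _).mpr hz'.2.1, (ordPF_lt h _ _).mpr hz'.2.2⟩, rfl⟩

lemma reach_sound {n : ℕ} {L : List El} {b t : El} (h : Good n L b t) (x y : PF L) (z0 : PF L)
    (hz0 : z0.1 ∈ mid L x.1 y.1) :
    ∀ (k : ℕ) (T : List El), (∀ w ∈ T, ∃ hw : w ∈ L,
      w ∈ mid L x.1 y.1 ∧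
      Relation.ReflTransGen (fun a c : PF L => c.1 ∈ mid L x.1 y.1 ∧
        ((ordPF h).le a c ∨ (ordPF h).le c a)) z0 ⟨w, hw⟩ ∧
      Relation.ReflTransGen (fun a c : PF L => c.1 ∈ mid L x.1 y.1 ∧
        ((ordPF h).le a c ∨ (ordPF h).le c a)) ⟨w, hw⟩ z0) →
    ∀ w ∈ reach (mid L x.1 y.1) k T, ∃ hw : w ∈ L,
      w ∈ mid L x.1 y.1 ∧
      Relation.ReflTransGen (fun a c : PF L => c.1 ∈ mid L x.1 y.1 ∧
        ((ordPF h).le a c ∨ (ordPF h).le c a)) z0 ⟨w, hw⟩ ∧
      Relation.ReflTransGen (fun a c : PF L => c.1 ∈ mid L x.1 y.1 ∧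
        ((ordPF h).le a c ∨ (ordPF h).le c a)) ⟨w, hw⟩ z0 := by
  intro k
  induction k with
  | zero => intro T hT w hw; exact hT w hw
  | succ k ih =>
    intro T hT
    apply ih
    intro w hw
    unfold stepL at hw
    rw [List.mem_filter, List.any_eq_true] at hw
    obtain ⟨hwS, u, huT, hu⟩ := hw
    obtain ⟨huL, huS, hu1, hu2⟩ := hT u huT
    have hwL : w ∈ L := by
      unfold mid at hwS
      exact (List.mem_filter.mp hwS).1
    rw [Bool.or_eq_true] at hu
    refine ⟨hwL, hwS, hu1.tail ⟨hwS, ?_⟩, Relation.ReflTransGen.head ⟨huS, ?_⟩ hu2⟩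
    · exact hu.symm
    · exact hu

/-- the polytope of a good list -/
def mkPoly {n : ℕ} {L : List El} {b t : El} (h : Good n L b t) : Polytope n :=
  letI := ordPF h
  letI bdd : BoundedOrder (PF L) :=
    { top := ⟨t, h.memt⟩
      bot := ⟨b, h.memb⟩
      le_top := fun x => h.top x.1 x.2
      bot_le := fun x => h.bot x.1 x.2 }
  have hm : StrictMono (fun x : PF L => x.1.1) := by
    intro x y hxy
    exact h.rk _ x.2 _ y.2 ((ordPF_lt h x y).mp hxy)
  have hf : ∀ A : Flag (PF L), (fun x : PF L => x.1.1) '' (A : Set (PF L)) = Set.Iic (n + 1) := by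
    apply flag_ranks_of_graded hm h.rkb h.rkt
    intro F G hFG hr
    obtain ⟨z, hz, h1, h2⟩ := h.graded _ F.2 _ G.2 ((ordPF_lt h F G).mp hFG) hr
    exact ⟨⟨z, hz⟩, (ordPF_lt h _ _).mpr h1, (ordPF_lt h _ _).mpr h2⟩
  { Face := PF L
    ord := ordPF h
    bdd := bdd
    rk := fun x => x.1.1
    rk_strictMono := hm
    flag_ranks := hf
    diamond := by
      intro F G hFG hr
      have h1 := h.diam _ F.2 _ G.2 ((ordPF_lt h F G).mp hFG) hr
      rw [← h1]
      exact ncard_mid h F G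
    connected := by
      apply connected_of_sections hm hf
      intro F G hFG hr H hH K hK
      have h1 := h.sect _ F.2 _ G.2 ((ordPF_lt h F G).mp hFG) hr
      have memmid : ∀ z : PF L, z.1 ∈ mid L F.1 G.1 ↔ z ∈ Set.Ioo F G := by
        intro z
        unfold mid
        rw [List.mem_filter, Bool.and_eq_true]
        constructor
        · rintro ⟨_, h2, h3⟩
          exact ⟨(ordPF_lt h _ _).mpr h2, (ordPF_lt h _ _).mpr h3⟩
        · rintro ⟨h2, h3⟩
          exact ⟨z.2, (ordPF_lt h _ _).mp h2, (ordPF_lt h _ _).mp h3⟩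
      have hHm := (memmid H).mpr hH
      have hKm := (memmid K).mpr hK
      unfold conn at h1
      rw [List.all_eq_true] at h1
      obtain ⟨z0, hz0⟩ : ∃ z0 : PF L, z0.1 ∈ mid L F.1 G.1 ∧ (mid L F.1 G.1).take 1 = [z0.1] := by
        cases hmid : mid L F.1 G.1 with
        | nil => rw [hmid] at hHm; exact absurd hHm List.not_mem_nil
        | cons a l =>
          have ha : a ∈ L := by
            have : a ∈ mid L F.1 G.1 := by rw [hmid]; exact List.mem_cons_self
            unfold mid at this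
            exact (List.mem_filter.mp this).1
          exact ⟨⟨a, ha⟩, List.mem_cons_self, rfl⟩
      have hsound := reach_sound h F G z0 hz0.1 6 ((mid L F.1 G.1).take 1) (by
        intro w hw
        rw [hz0.2, List.mem_singleton] at hw
        subst hw
        exact ⟨z0.2, hz0.1, Relation.ReflTransGen.refl, Relation.ReflTransGen.refl⟩)
      have both : ∀ z : PF L, z.1 ∈ mid L F.1 G.1 →
          Relation.ReflTransGen (fun a c : PF L => c.1 ∈ mid L F.1 G.1 ∧
            ((ordPF h).le a c ∨ (ordPF h).le c a)) z0 z ∧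
          Relation.ReflTransGen (fun a c : PF L => c.1 ∈ mid L F.1 G.1 ∧
            ((ordPF h).le a c ∨ (ordPF h).le c a)) z z0 := by
        intro z hz
        have h2 := h1 z.1 hz
        rw [List.any_eq_true] at h2
        obtain ⟨w, hw, hzw⟩ := h2
        rw [eqB_iff] at hzw
        subst hzw
        obtain ⟨_, _, h3, h4⟩ := hsound _ hw
        exact ⟨h3, h4⟩
      have hpath := (both H hHm).2.trans (both K hKm).1
      refine (Relation.ReflTransGen.mono ?_) H K hpath
      intro a c hac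
      exact ⟨(memmid c).mp hac.1, hac.2⟩ }



/-! ### Isomorphisms given by tables -/

def look (T : List (ℕ × El)) (x : El) : El :=
  match T.find? (fun p => Nat.beq p.1 x.2) with
  | some p => p.2
  | none => (0, 0)

def isoChk (S L' : List El) (T : List (ℕ × El)) : Bool :=
  (S.all fun x => L'.any fun y => eqB (look T x) y) &&
  (S.all fun x => S.all fun y => (leB x y) == (leB (look T x) (look T y))) &&
  (L'.all fun y => S.any fun x => eqB (look T x) y)

lemma iso_sub {n m : ℕ} {L L' : List El} {b t b' t' : El} (h : Good n L b t)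
    (h' : Good m L' b' t') (U : Set (PF L)) (p : El → Bool) (hU : ∀ x : PF L, x ∈ U ↔ p x.1 = true)
    (T : List (ℕ × El)) (hchk : isoChk (L.filter p) L' T = true) :
    letI := ordPF h
    letI := ordPF h'
    ∃ e : U ≃o PF L', ∀ x : U, (e x).1 = look T x.1.1 := by
  letI := ordPF h
  letI := ordPF h'
  unfold isoChk at hchk
  simp only [Bool.and_eq_true, List.all_eq_true, List.any_eq_true, beq_iff_eq] at hchk
  obtain ⟨⟨h1, h2⟩, h3⟩ := hchk
  have hmem : ∀ x : U, x.1.1 ∈ L.filter p := fun x =>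
    List.mem_filter.mpr ⟨x.1.2, (hU x.1).mp x.2⟩
  have hL' : ∀ x : U, look T x.1.1 ∈ L' := by
    intro x
    obtain ⟨y, hy, hxy⟩ := h1 _ (hmem x)
    rw [eqB_iff] at hxy
    rw [hxy]; exact hy
  let f : U → PF L' := fun x => ⟨look T x.1.1, hL' x⟩
  have hf : ∀ x y : U, f x ≤ f y ↔ x ≤ y := by
    intro x y
    show leB (look T x.1.1) (look T y.1.1) = true ↔ leB x.1.1 y.1.1 = true
    rw [h2 _ (hmem x) _ (hmem y)]
  have hsurj : Function.Surjective (OrderEmbedding.ofMapLEIff f hf) := by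
    intro y
    obtain ⟨x, hx, hxy⟩ := h3 y.1 y.2
    rw [List.mem_filter] at hx
    rw [eqB_iff] at hxy
    exact ⟨⟨⟨x, hx.1⟩, (hU ⟨x, hx.1⟩).mpr hx.2⟩, Subtype.ext hxy⟩
  exact ⟨RelIso.ofSurjective (OrderEmbedding.ofMapLEIff f hf) hsurj, fun x => rfl⟩

def tab (FT : List (ℕ × List (ℕ × El))) (F : El) : List (ℕ × El) :=
  match FT.find? (fun p => Nat.beq p.1 F.2) with
  | some p => p.2
  | none => []

def amalChk (n : ℕ) (L LP LQ : List El) (FT VT : List (ℕ × List (ℕ × El))) : Bool :=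
  (L.all fun F => !(Nat.beq F.1 (n + 1)) || isoChk (L.filter (fun x => leB x F)) LP (tab FT F)) &&
  (L.all fun v => !(Nat.beq v.1 1) || isoChk (L.filter (fun x => leB v x)) LQ (tab VT v))

lemma amal_of_chk {n : ℕ} {L LP LQ : List El} {b t bP tP bQ tQ : El} (hR : Good (n + 1) L b t)
    (hP : Good n LP bP tP) (hQ : Good n LQ bQ tQ) {FT VT : List (ℕ × List (ℕ × El))}
    (hchk : amalChk n L LP LQ FT VT = true) :
    IsAmalgamation (mkPoly hP) (mkPoly hQ) (mkPoly hR) := by
  unfold amalChk at hchk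
  simp only [Bool.and_eq_true, List.all_eq_true] at hchk
  obtain ⟨h1, h2⟩ := hchk
  constructor
  · intro F hF
    have h3 := imp_of_or (h1 F.1 F.2) (by rw [Nat.beq_eq]; exact hF)
    obtain ⟨e, -⟩ := iso_sub hR hP {x : PF L | leB x.1 F.1 = true} _ (fun x => Iff.rfl) _ h3
    exact ⟨e⟩
  · intro v hv
    have h3 := imp_of_or (h2 v.1 v.2) (by rw [Nat.beq_eq]; exact hv)
    obtain ⟨e, -⟩ := iso_sub hR hQ {x : PF L | leB v.1 x.1 = true} _ (fun x => Iff.rfl) _ h3
    exact ⟨e⟩

lemma auto_of_chk {n : ℕ} {L : List El} {b t : El} (h : Good n L b t) {T : List (ℕ × El)}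
    (hchk : isoChk (L.filter (fun _ => true)) L T = true) :
    ∃ a : (mkPoly h).Face ≃o (mkPoly h).Face, ∀ x : (mkPoly h).Face,
      (show PF L from a x).1 = look T (show PF L from x).1 := by
  obtain ⟨e, he⟩ := iso_sub h h (Set.univ : Set (PF L)) (fun _ => true)
    (fun x => by simp) T hchk
  letI := ordPF h
  refine ⟨(OrderIso.Set.univ (α := PF L)).symm.trans e, ?_⟩
  intro x
  exact he ⟨x, trivial⟩

/-- flags of a rank three polytope are determined by three faces -/
lemma flag_transport {P : Polytope 3} (a : P.Face ≃o P.Face) {B Φ : Flag P.Face}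
    {v e f : P.Face} (hv : v ∈ B) (he : e ∈ B) (hf : f ∈ B) (hv1 : P.rk v = 1)
    (he2 : P.rk e = 2) (hf3 : P.rk f = 3) (hav : a v ∈ Φ) (hae : a e ∈ Φ) (haf : a f ∈ Φ) :
    ∀ x, x ∈ B ↔ a x ∈ Φ := by
  have fwd : ∀ x ∈ B, a x ∈ Φ := by
    intro x hx
    have hr := rk_le P x
    have hm := P.rk_strictMono
    have hcases : P.rk x = 0 ∨ P.rk x = 1 ∨ P.rk x = 2 ∨ P.rk x = 3 ∨ P.rk x = 4 := by omega
    rcases hcases with h | h | h | h | h
    · rw [eq_bot_of_rk P h, a.map_bot]; exact Φ.bot_mem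
    · rw [flag_unique hm B hx hv (by omega)]; exact hav
    · rw [flag_unique hm B hx he (by omega)]; exact hae
    · rw [flag_unique hm B hx hf (by omega)]; exact haf
    · rw [eq_top_of_rk P h, a.map_top]; exact Φ.top_mem
  intro x
  refine ⟨fwd x, fun hx => ?_⟩
  obtain ⟨y, hy, hyx⟩ := flag_exists P.flag_ranks B (rk_le P x)
  have h1 := fwd y hy
  have h2 : a y = a x := flag_unique P.rk_strictMono Φ h1 hx (by rw [rk_orderIso, rk_orderIso, hyx])
  rw [← a.injective h2]; exact hy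

lemma ncard_Ioo_iso {P : Polytope 3} (a : P.Face ≃o P.Face) (x y : P.Face) :
    (Set.Ioo x y).ncard = (Set.Ioo (a x) (a y)).ncard := by
  apply Set.ncard_congr (fun p _ => a p)
  · intro p hp
    exact ⟨a.lt_iff_lt.mpr hp.1, a.lt_iff_lt.mpr hp.2⟩
  · intro p q _ _ h
    exact a.injective h
  · intro q hq
    refine ⟨a.symm q, ⟨?_, ?_⟩, by simp⟩
    · rw [a.lt_symm_apply]; exact hq.1
    · rw [a.symm_apply_lt]; exact hq.2

def rootChkP (L : List El) (t v0 e0 f0 : El) (A : List (List (ℕ × El))) : Bool :=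
  (A.all fun T => isoChk (L.filter (fun _ => true)) L T) &&
  (L.any fun x => eqB v0 x) && (L.any fun x => eqB e0 x) && (L.any fun x => eqB f0 x) &&
  ltB v0 e0 && ltB e0 f0 && Nat.beq v0.1 1 && Nat.beq (mid L v0 t).length 4 &&
  (L.all fun v => !(Nat.beq v.1 1 && Nat.beq (mid L v t).length 4) ||
    L.all fun e => !(Nat.beq e.1 2 && ltB v e) ||
    L.all fun f => !(Nat.beq f.1 3 && ltB e f) ||
    A.any fun T => eqB (look T v) v0 && eqB (look T e) e0 && eqB (look T f) f0)

def rootChkQ (L : List El) (b v0 e0 f0 : El) (A : List (List (ℕ × El))) : Bool :=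
  (A.all fun T => isoChk (L.filter (fun _ => true)) L T) &&
  (L.any fun x => eqB v0 x) && (L.any fun x => eqB e0 x) && (L.any fun x => eqB f0 x) &&
  ltB v0 e0 && ltB e0 f0 && Nat.beq f0.1 3 && Nat.beq (mid L b f0).length 4 &&
  (L.all fun f => !(Nat.beq f.1 3 && Nat.beq (mid L b f).length 4) ||
    L.all fun e => !(Nat.beq e.1 2 && ltB e f) ||
    L.all fun v => !(Nat.beq v.1 1 && ltB v e) ||
    A.any fun T => eqB (look T v) v0 && eqB (look T e) e0 && eqB (look T f) f0)

lemma rootP_of_chk {L : List El} {b t v0 e0 f0 : El} {A : List (List (ℕ × El))}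
    (h : Good 3 L b t) (hchk : rootChkP L t v0 e0 f0 A = true) :
    ∃ Φ : Flag (mkPoly h).Face, ∀ B : Flag (mkPoly h).Face, ∀ v ∈ B, (mkPoly h).rk v = 1 →
      ((Set.Ioo v ⊤).ncard = 4 ↔
        ∃ a : (mkPoly h).Face ≃o (mkPoly h).Face, ∀ x, x ∈ B ↔ a x ∈ Φ) := by
  unfold rootChkP at hchk
  simp only [Bool.and_eq_true, List.all_eq_true, List.any_eq_true, Nat.beq_eq, eqB_iff] at hchk
  obtain ⟨⟨⟨⟨⟨⟨⟨⟨h1, h2⟩, h3⟩, h4⟩, h5⟩, h6⟩, h7⟩, h8⟩, h9⟩ := hchk
  obtain ⟨_, hv0, rfl⟩ := h2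
  obtain ⟨_, he0, rfl⟩ := h3
  obtain ⟨_, hf0, rfl⟩ := h4
  let P := mkPoly h
  let v0' : P.Face := (⟨v0, hv0⟩ : PF L)
  let e0' : P.Face := (⟨e0, he0⟩ : PF L)
  let f0' : P.Face := (⟨f0, hf0⟩ : PF L)
  have hve : v0' < e0' := (ordPF_lt h _ _).mpr h5
  have hef : e0' < f0' := (ordPF_lt h _ _).mpr h6
  have hc : IsChain (· ≤ ·) ({v0', e0', f0'} : Set P.Face) := by
    have a1 := hve.le
    have a2 := hef.le
    have a3 := a1.trans a2
    rintro a (rfl | rfl | rfl) b (rfl | rfl | rfl) _ <;>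
      first | exact Or.inl (by assumption) | exact Or.inr (by assumption) | exact Or.inl le_rfl
  obtain ⟨Φ, hΦ⟩ := hc.exists_subset_flag
  have m1 : v0' ∈ Φ := hΦ (by simp)
  have m2 : e0' ∈ Φ := hΦ (by simp)
  have m3 : f0' ∈ Φ := hΦ (by simp)
  have cnt : ∀ v : P.Face, (Set.Ioo v ⊤).ncard = (mid L (v : PF L).1 t).length := fun v =>
    ncard_mid h v ⟨t, h.memt⟩
  refine ⟨Φ, ?_⟩
  intro B v hv hv1
  constructor
  · intro hcard
    obtain ⟨e, he, he2⟩ := flag_exists P.flag_ranks B (show 2 ≤ 3 + 1 by norm_num)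
    obtain ⟨f, hf, hf3⟩ := flag_exists P.flag_ranks B (show 3 ≤ 3 + 1 by norm_num)
    have ve : v < e := flag_lt P.rk_strictMono B hv he (by rw [hv1, he2]; norm_num)
    have ef : e < f := flag_lt P.rk_strictMono B he hf (by omega)
    have k1 := imp_of_or (h9 (v : PF L).1 (v : PF L).2) (by
      rw [Bool.and_eq_true, Nat.beq_eq, Nat.beq_eq]
      exact ⟨hv1, (cnt v).symm.trans hcard⟩)
    rw [List.all_eq_true] at k1
    have k2 := imp_of_or (k1 (e : PF L).1 (e : PF L).2) (by
      rw [Bool.and_eq_true, Nat.beq_eq]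
      exact ⟨he2, (ordPF_lt h _ _).mp ve⟩)
    rw [List.all_eq_true] at k2
    have k3 := imp_of_or (k2 (f : PF L).1 (f : PF L).2) (by
      rw [Bool.and_eq_true, Nat.beq_eq]
      exact ⟨hf3, (ordPF_lt h _ _).mp ef⟩)
    rw [List.any_eq_true] at k3
    obtain ⟨T, hT, hT'⟩ := k3
    rw [Bool.and_eq_true, Bool.and_eq_true, eqB_iff, eqB_iff, eqB_iff] at hT'
    obtain ⟨⟨t1, t2⟩, t3⟩ := hT'
    obtain ⟨a, ha⟩ := auto_of_chk h (h1 T hT)
    refine ⟨a, flag_transport a hv he hf hv1 he2 hf3 ?_ ?_ ?_⟩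
    · have : a v = v0' := Subtype.ext ((ha v).trans t1)
      rw [this]; exact m1
    · have : a e = e0' := Subtype.ext ((ha e).trans t2)
      rw [this]; exact m2
    · have : a f = f0' := Subtype.ext ((ha f).trans t3)
      rw [this]; exact m3
  · rintro ⟨a, ha⟩
    have g1 : a v ∈ Φ := (ha v).mp hv
    have g2 : a v = v0' := flag_unique P.rk_strictMono Φ g1 m1 (by
      rw [rk_orderIso, hv1]; exact h7.symm)
    rw [ncard_Ioo_iso a, g2, a.map_top]
    exact (cnt ⟨v0, hv0⟩).trans h8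

lemma rootQ_of_chk {L : List El} {b t v0 e0 f0 : El} {A : List (List (ℕ × El))}
    (h : Good 3 L b t) (hchk : rootChkQ L b v0 e0 f0 A = true) :
    ∃ Φ : Flag (mkPoly h).Face, ∀ B : Flag (mkPoly h).Face, ∀ G ∈ B, (mkPoly h).rk G = 3 →
      ((Set.Ioo ⊥ G).ncard = 4 ↔
        ∃ a : (mkPoly h).Face ≃o (mkPoly h).Face, ∀ x, x ∈ B ↔ a x ∈ Φ) := by
  unfold rootChkQ at hchk
  simp only [Bool.and_eq_true, List.all_eq_true, List.any_eq_true, Nat.beq_eq, eqB_iff] at hchk
  obtain ⟨⟨⟨⟨⟨⟨⟨⟨h1, h2⟩, h3⟩, h4⟩, h5⟩, h6⟩, h7⟩, h8⟩, h9⟩ := hchk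
  obtain ⟨_, hv0, rfl⟩ := h2
  obtain ⟨_, he0, rfl⟩ := h3
  obtain ⟨_, hf0, rfl⟩ := h4
  let P := mkPoly h
  let v0' : P.Face := (⟨v0, hv0⟩ : PF L)
  let e0' : P.Face := (⟨e0, he0⟩ : PF L)
  let f0' : P.Face := (⟨f0, hf0⟩ : PF L)
  have hve : v0' < e0' := (ordPF_lt h _ _).mpr h5
  have hef : e0' < f0' := (ordPF_lt h _ _).mpr h6
  have hc : IsChain (· ≤ ·) ({v0', e0', f0'} : Set P.Face) := by
    have a1 := hve.le
    have a2 := hef.le
    have a3 := a1.trans a2
    rintro a (rfl | rfl | rfl) b (rfl | rfl | rfl) _ <;>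
      first | exact Or.inl (by assumption) | exact Or.inr (by assumption) | exact Or.inl le_rfl
  obtain ⟨Φ, hΦ⟩ := hc.exists_subset_flag
  have m1 : v0' ∈ Φ := hΦ (by simp)
  have m2 : e0' ∈ Φ := hΦ (by simp)
  have m3 : f0' ∈ Φ := hΦ (by simp)
  have cnt : ∀ v : P.Face, (Set.Ioo ⊥ v).ncard = (mid L b (v : PF L).1).length := fun v =>
    ncard_mid h ⟨b, h.memb⟩ v
  refine ⟨Φ, ?_⟩
  intro B f hf hf3
  constructor
  · intro hcard
    obtain ⟨e, he, he2⟩ := flag_exists P.flag_ranks B (show 2 ≤ 3 + 1 by norm_num)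
    obtain ⟨v, hv, hv1⟩ := flag_exists P.flag_ranks B (show 1 ≤ 3 + 1 by norm_num)
    have ve : v < e := flag_lt P.rk_strictMono B hv he (by omega)
    have ef : e < f := flag_lt P.rk_strictMono B he hf (by rw [he2, hf3]; norm_num)
    have k1 := imp_of_or (h9 (f : PF L).1 (f : PF L).2) (by
      rw [Bool.and_eq_true, Nat.beq_eq, Nat.beq_eq]
      exact ⟨hf3, (cnt f).symm.trans hcard⟩)
    rw [List.all_eq_true] at k1
    have k2 := imp_of_or (k1 (e : PF L).1 (e : PF L).2) (by
      rw [Bool.and_eq_true, Nat.beq_eq]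
      exact ⟨he2, (ordPF_lt h _ _).mp ef⟩)
    rw [List.all_eq_true] at k2
    have k3 := imp_of_or (k2 (v : PF L).1 (v : PF L).2) (by
      rw [Bool.and_eq_true, Nat.beq_eq]
      exact ⟨hv1, (ordPF_lt h _ _).mp ve⟩)
    rw [List.any_eq_true] at k3
    obtain ⟨T, hT, hT'⟩ := k3
    rw [Bool.and_eq_true, Bool.and_eq_true, eqB_iff, eqB_iff, eqB_iff] at hT'
    obtain ⟨⟨t1, t2⟩, t3⟩ := hT'
    obtain ⟨a, ha⟩ := auto_of_chk h (h1 T hT)
    refine ⟨a, flag_transport a hv he hf hv1 he2 hf3 ?_ ?_ ?_⟩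
    · have : a v = v0' := Subtype.ext ((ha v).trans t1)
      rw [this]; exact m1
    · have : a e = e0' := Subtype.ext ((ha e).trans t2)
      rw [this]; exact m2
    · have : a f = f0' := Subtype.ext ((ha f).trans t3)
      rw [this]; exact m3
  · rintro ⟨a, ha⟩
    have g1 : a f ∈ Φ := (ha f).mp hf
    have g2 : a f = f0' := flag_unique P.rk_strictMono Φ g1 m3 (by
      rw [rk_orderIso, hf3]; exact h7.symm)
    rw [ncard_Ioo_iso a, g2, a.map_bot]
    exact (cnt ⟨f0, hf0⟩).trans h8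

def notSpecialChk (L : List El) : Bool :=
  L.all fun v => !(Nat.beq v.1 1) ||
    L.all fun e => !(Nat.beq e.1 2 && ltB v e) ||
    L.all fun f => !(Nat.beq f.1 3 && ltB e f) ||
    L.all fun F => !(Nat.beq F.1 4 && ltB f F && !(Nat.beq (mid L v F).length 4)) ||
    L.all fun v' => !(Nat.beq v'.1 1 && ltB v' e && !(eqB v v') && Nat.beq (mid L v' F).length 4) ||
    L.all fun F' => !(Nat.beq F'.1 4 && ltB f F' && !(eqB F F') && Nat.beq (mid L v F').length 4)

lemma not_special_of_chk {L : List El} {b t : El} (h : Good 4 L b t)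
    (hchk : notSpecialChk L = true) : ¬ Special (mkPoly h) := by
  rintro ⟨v, v', e, f, F, F', h1, h2, h3, h4, h5, h6, h7, h8, h9, h10, h11, h12, h13, h14, h15,
    h16⟩
  have cnt : ∀ x y : (mkPoly h).Face, (Set.Ioo x y).ncard =
      (mid L (x : PF L).1 (y : PF L).1).length := fun x y => ncard_mid h x y
  have ne : ∀ x y : PF L, x ≠ y → ¬ (eqB x.1 y.1 = true) := by
    intro x y hxy he
    rw [eqB_iff] at he
    exact hxy (Subtype.ext he)
  unfold notSpecialChk at hchk
  rw [List.all_eq_true] at hchk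
  have k1 := imp_of_or (hchk (v : PF L).1 (v : PF L).2) (by rw [Nat.beq_eq]; exact h1)
  rw [List.all_eq_true] at k1
  have k2 := imp_of_or (k1 (e : PF L).1 (e : PF L).2) (by
    rw [Bool.and_eq_true, Nat.beq_eq]; exact ⟨h3, (ordPF_lt h _ _).mp h7⟩)
  rw [List.all_eq_true] at k2
  have k3 := imp_of_or (k2 (f : PF L).1 (f : PF L).2) (by
    rw [Bool.and_eq_true, Nat.beq_eq]; exact ⟨h4, (ordPF_lt h _ _).mp h9⟩)
  rw [List.all_eq_true] at k3
  have k4 := imp_of_or (k3 (F : PF L).1 (F : PF L).2) (by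
    rw [Bool.and_eq_true, Bool.and_eq_true, Nat.beq_eq, Bool.not_eq_true', ← Bool.not_eq_true,
      Nat.beq_eq]
    exact ⟨⟨h5, (ordPF_lt h _ _).mp h10⟩, fun hh => h14 ((cnt v F).trans hh)⟩)
  rw [List.all_eq_true] at k4
  have k5 := imp_of_or (k4 (v' : PF L).1 (v' : PF L).2) (by
    rw [Bool.and_eq_true, Bool.and_eq_true, Bool.and_eq_true, Nat.beq_eq, Nat.beq_eq,
      Bool.not_eq_true', ← Bool.not_eq_true]
    exact ⟨⟨⟨h2, (ordPF_lt h _ _).mp h8⟩, ne v v' h12⟩, (cnt v' F).symm.trans h15⟩)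
  rw [List.all_eq_true] at k5
  have k6 := k5 (F' : PF L).1 (F' : PF L).2
  rw [Bool.not_eq_true', ← Bool.not_eq_true] at k6
  apply k6
  rw [Bool.and_eq_true, Bool.and_eq_true, Bool.and_eq_true, Nat.beq_eq, Nat.beq_eq,
    Bool.not_eq_true', ← Bool.not_eq_true]
  exact ⟨⟨⟨h6, (ordPF_lt h _ _).mp h11⟩, ne F F' h13⟩, (cnt v F').symm.trans h16⟩

def specialChk (L : List El) (v v' e f F F' : El) : Bool :=
  (L.any fun x => eqB v x) && (L.any fun x => eqB v' x) && (L.any fun x => eqB e x) &&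
  (L.any fun x => eqB f x) && (L.any fun x => eqB F x) && (L.any fun x => eqB F' x) &&
  Nat.beq v.1 1 && Nat.beq v'.1 1 && Nat.beq e.1 2 && Nat.beq f.1 3 && Nat.beq F.1 4 &&
  Nat.beq F'.1 4 && ltB v e && ltB v' e && ltB e f && ltB f F && ltB f F' && !(eqB v v') &&
  !(eqB F F') && !(Nat.beq (mid L v F).length 4) && Nat.beq (mid L v' F).length 4 &&
  Nat.beq (mid L v F').length 4

lemma special_of_chk {L : List El} {b t v v' e f F F' : El} (h : Good 4 L b t)
    (hchk : specialChk L v v' e f F F' = true) : Special (mkPoly h) := by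
  unfold specialChk at hchk
  simp only [Bool.and_eq_true, List.any_eq_true, Nat.beq_eq, eqB_iff, Bool.not_eq_true'] at hchk
  obtain ⟨⟨⟨⟨⟨⟨⟨⟨⟨⟨⟨⟨⟨⟨⟨⟨⟨⟨⟨⟨⟨⟨_, m1, rfl⟩, ⟨_, m2, rfl⟩⟩, ⟨_, m3, rfl⟩⟩, ⟨_, m4, rfl⟩⟩,
    ⟨_, m5, rfl⟩⟩, ⟨_, m6, rfl⟩⟩, h1⟩, h2⟩, h3⟩, h4⟩, h5⟩, h6⟩, h7⟩, h8⟩, h9⟩, h10⟩, h11⟩, h12⟩,
    h13⟩, h14⟩, h15⟩, h16⟩ := hchk
  have cnt : ∀ x y : (mkPoly h).Face, (Set.Ioo x y).ncard =
      (mid L (x : PF L).1 (y : PF L).1).length := fun x y => ncard_mid h x y
  refine ⟨(⟨v, m1⟩ : PF L), (⟨v', m2⟩ : PF L), (⟨e, m3⟩ : PF L), (⟨f, m4⟩ : PF L),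
    (⟨F, m5⟩ : PF L), (⟨F', m6⟩ : PF L), h1, h2, h3, h4, h5, h6, (ordPF_lt h _ _).mpr h7,
    (ordPF_lt h _ _).mpr h8, (ordPF_lt h _ _).mpr h9, (ordPF_lt h _ _).mpr h10,
    (ordPF_lt h _ _).mpr h11, ?_, ?_, ?_, ?_, ?_⟩
  · intro he
    have : v = v' := congrArg (fun z : PF L => z.1) he
    rw [← Bool.not_eq_true, eqB_iff] at h12
    exact h12 this
  · intro he
    have : F = F' := congrArg (fun z : PF L => z.1) he
    rw [← Bool.not_eq_true, eqB_iff] at h13
    exact h13 this
  · intro he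
    rw [← Bool.not_eq_true, Nat.beq_eq] at h14
    exact h14 ((cnt ⟨v, m1⟩ ⟨F, m5⟩).symm.trans he)
  · exact (cnt ⟨v', m2⟩ ⟨F, m5⟩).trans h15
  · exact (cnt ⟨v, m1⟩ ⟨F', m6⟩).trans h16

/-! ### The concrete posets -/

def LP : List (ℕ × ℕ) :=
  [(0, 0), (1, 1), (1, 2), (1, 4), (1, 8), (1, 16), (1, 32), (2, 67), (2, 133), (2, 266), (2, 532), (2, 1042), (2, 2060), (2, 4144), (2, 8232), (3, 18135), (3, 35279), (3, 79162), (3, 145980), (4, 262143)]

def LQ : List (ℕ × ℕ) :=
  [(0, 0), (1, 1), (1, 2), (1, 4), (1, 8), (2, 19), (2, 35), (2, 69), (2, 138), (2, 265), (2, 518), (2, 1036), (2, 2060), (3, 4147), (3, 8603), (3, 16999), (3, 34125), (3, 68238), (3, 134156), (4, 262143)]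

def LR1 : List (ℕ × ℕ) :=
  [(0, 0), (1, 1), (1, 2), (1, 4), (1, 8), (1, 16), (1, 32), (2, 67), (2, 133), (2, 266), (2, 532), (2, 1042), (2, 2060), (2, 4144), (2, 8232), (2, 16393), (2, 32804), (2, 65570), (2, 131089), (3, 263895), (3, 526799), (3, 1062202), (3, 2112060), (3, 4251821), (3, 8478827), (3, 16877110), (3, 33722549), (3, 67309683), (3, 134318382), (3, 268585501), (3, 537019675), (4, 1077690367), (4, 2177230591), (4, 4530608639), (4, 9546485567), (4, 17755731391), (4, 34705996415), (5, 68719476735)]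

def LR2 : List (ℕ × ℕ) :=
  [(0, 0), (1, 1), (1, 2), (1, 4), (1, 8), (1, 16), (1, 32), (1, 64), (1, 128), (2, 259), (2, 517), (2, 1034), (2, 2068), (2, 4114), (2, 8204), (2, 16432), (2, 32808), (2, 65616), (2, 131137), (2, 262336), (2, 524420), (2, 1048736), (2, 2097282), (2, 4194376), (2, 8388641), (3, 16784151), (3, 33564431), (3, 67163194), (3, 134277180), (3, 268636499), (3, 537789125), (3, 1074596052), (3, 2150650034), (3, 4301522122), (3, 8595472616), (3, 17191403939), (3, 34368340081), (3, 68729438885), (3, 137441584270), (3, 274882177116), (3, 549768560745), (4, 1099763351359), (4, 2200920071127), (4, 4413153662202), (4, 8850060300787), (4, 17815569967023), (4, 36043512604797), (4, 70996360856301), (4, 141155181079774), (5, 281474976710655)]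

def FT1 : List (ℕ × List (ℕ × (ℕ × ℕ))) :=
  [(1077690367, [(0, (0, 0)), (1077690367, (4, 262143)), (1, (1, 1)), (67, (2, 67)), (263895, (3, 18135)), (2, (1, 2)), (133, (2, 133)), (526799, (3, 35279)), (4, (1, 4)), (2060, (2, 2060)), (532, (2, 532)), (16, (1, 16)), (2112060, (3, 145980)), (8, (1, 8)), (8232, (2, 8232)), (266, (2, 266)), (1062202, (3, 79162)), (32, (1, 32)), (4144, (2, 4144)), (1042, (2, 1042))]),
  (2177230591, [(0, (0, 0)), (2177230591, (4, 262143)), (8, (1, 1)), (16393, (2, 67)), (4251821, (3, 18135)), (1, (1, 2)), (8232, (2, 133)), (8478827, (3, 35279)), (32, (1, 4)), (65570, (2, 2060)), (32804, (2, 532)), (4, (1, 16)), (16877110, (3, 145980)), (2, (1, 8)), (1042, (2, 8232)), (67, (2, 266)), (263895, (3, 79162)), (16, (1, 32)), (532, (2, 4144)), (133, (2, 1042))]),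
  (4530608639, [(0, (0, 0)), (4530608639, (4, 262143)), (16, (1, 1)), (131089, (2, 67)), (33722549, (3, 18135)), (1, (1, 2)), (4144, (2, 133)), (67309683, (3, 35279)), (32, (1, 4)), (65570, (2, 2060)), (32804, (2, 532)), (4, (1, 16)), (134318382, (3, 145980)), (2, (1, 8)), (266, (2, 8232)), (67, (2, 266)), (526799, (3, 79162)), (8, (1, 32)), (2060, (2, 4144)), (133, (2, 1042))]),
  (9546485567, [(0, (0, 0)), (9546485567, (4, 262143)), (32, (1, 1)), (32804, (2, 67)), (16877110, (3, 18135)), (4, (1, 2)), (65570, (2, 133)), (134318382, (3, 35279)), (2, (1, 4)), (266, (2, 2060)), (1042, (2, 532)), (16, (1, 16)), (537019675, (3, 145980)), (8, (1, 8)), (16393, (2, 8232)), (2060, (2, 266)), (268585501, (3, 79162)), (1, (1, 32)), (131089, (2, 4144)), (532, (2, 1042))]),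
  (17755731391, [(0, (0, 0)), (17755731391, (4, 262143)), (2, (1, 1)), (266, (2, 67)), (1062202, (3, 18135)), (8, (1, 2)), (1042, (2, 133)), (537019675, (3, 35279)), (16, (1, 4)), (131089, (2, 2060)), (4144, (2, 532)), (32, (1, 16)), (33722549, (3, 145980)), (1, (1, 8)), (133, (2, 8232)), (16393, (2, 266)), (4251821, (3, 79162)), (4, (1, 32)), (32804, (2, 4144)), (8232, (2, 1042))]),
  (34705996415, [(0, (0, 0)), (34705996415, (4, 262143)), (4, (1, 1)), (532, (2, 67)), (2112060, (3, 18135)), (16, (1, 2)), (2060, (2, 133)), (268585501, (3, 35279)), (8, (1, 4)), (16393, (2, 2060)), (8232, (2, 532)), (32, (1, 16)), (8478827, (3, 145980)), (1, (1, 8)), (67, (2, 8232)), (131089, (2, 266)), (67309683, (3, 79162)), (2, (1, 32)), (65570, (2, 4144)), (4144, (2, 1042))])]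

def VT1 : List (ℕ × List (ℕ × (ℕ × ℕ))) :=
  [(1, [(1, (0, 0)), (68719476735, (4, 262143)), (67, (1, 1)), (263895, (2, 19)), (1077690367, (3, 4147)), (133, (1, 2)), (526799, (2, 35)), (2177230591, (3, 8603)), (8478827, (2, 265)), (16393, (1, 8)), (34705996415, (3, 34125)), (67309683, (2, 69)), (131089, (1, 4)), (4530608639, (3, 16999)), (33722549, (2, 518)), (17755731391, (3, 68238)), (4251821, (2, 138)), (537019675, (2, 2060)), (9546485567, (3, 134156)), (268585501, (2, 1036))]),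
  (2, [(2, (0, 0)), (68719476735, (4, 262143)), (67, (1, 1)), (526799, (2, 69)), (1077690367, (3, 34125)), (266, (1, 4)), (263895, (2, 265)), (4530608639, (3, 16999)), (67309683, (2, 35)), (65570, (1, 2)), (34705996415, (3, 4147)), (8478827, (2, 19)), (2177230591, (3, 8603)), (1042, (1, 8)), (16877110, (2, 138)), (1062202, (2, 1036)), (17755731391, (3, 134156)), (537019675, (2, 2060)), (9546485567, (3, 68238)), (134318382, (2, 518))]),
  (4, [(4, (0, 0)), (68719476735, (4, 262143)), (133, (1, 1)), (263895, (2, 69)), (1077690367, (3, 34125)), (532, (1, 4)), (526799, (2, 265)), (2177230591, (3, 16999)), (4251821, (2, 35)), (32804, (1, 2)), (17755731391, (3, 4147)), (33722549, (2, 19)), (4530608639, (3, 8603)), (2060, (1, 8)), (134318382, (2, 138)), (2112060, (2, 1036)), (34705996415, (3, 134156)), (268585501, (2, 2060)), (9546485567, (3, 68238)), (16877110, (2, 518))]),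
  (8, [(8, (0, 0)), (68719476735, (4, 262143)), (266, (1, 1)), (526799, (2, 19)), (1077690367, (3, 8603)), (2060, (1, 2)), (1062202, (2, 265)), (4530608639, (3, 4147)), (134318382, (2, 35)), (9546485567, (3, 16999)), (537019675, (2, 69)), (16393, (1, 4)), (17755731391, (3, 34125)), (8232, (1, 8)), (4251821, (2, 1036)), (2112060, (2, 138)), (34705996415, (3, 68238)), (8478827, (2, 2060)), (2177230591, (3, 134156)), (268585501, (2, 518))]),
  (16, [(16, (0, 0)), (68719476735, (4, 262143)), (532, (1, 1)), (263895, (2, 19)), (1077690367, (3, 8603)), (1042, (1, 2)), (2112060, (2, 265)), (2177230591, (3, 4147)), (16877110, (2, 35)), (9546485567, (3, 16999)), (268585501, (2, 69)), (131089, (1, 4)), (34705996415, (3, 34125)), (4144, (1, 8)), (67309683, (2, 1036)), (1062202, (2, 138)), (17755731391, (3, 68238)), (33722549, (2, 2060)), (4530608639, (3, 134156)), (537019675, (2, 518))]),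
  (32, [(32, (0, 0)), (68719476735, (4, 262143)), (4144, (1, 1)), (1062202, (2, 19)), (1077690367, (3, 4147)), (8232, (1, 2)), (2112060, (2, 35)), (17755731391, (3, 8603)), (33722549, (2, 265)), (32804, (1, 8)), (4530608639, (3, 34125)), (67309683, (2, 69)), (65570, (1, 4)), (34705996415, (3, 16999)), (8478827, (2, 518)), (2177230591, (3, 68238)), (4251821, (2, 138)), (16877110, (2, 2060)), (9546485567, (3, 134156)), (134318382, (2, 1036))])]

def FT2 : List (ℕ × List (ℕ × (ℕ × ℕ))) :=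
  [(1099763351359, [(0, (0, 0)), (1099763351359, (4, 262143)), (1, (1, 1)), (259, (2, 67)), (16784151, (3, 18135)), (2, (1, 2)), (517, (2, 133)), (33564431, (3, 35279)), (4, (1, 4)), (8204, (2, 2060)), (2068, (2, 532)), (16, (1, 16)), (134277180, (3, 145980)), (8, (1, 8)), (32808, (2, 8232)), (1034, (2, 266)), (67163194, (3, 79162)), (32, (1, 32)), (16432, (2, 4144)), (4114, (2, 1042))]),
  (2200920071127, [(0, (0, 0)), (2200920071127, (4, 262143)), (2, (1, 1)), (259, (2, 67)), (268636499, (3, 18135)), (1, (1, 2)), (4114, (2, 133)), (16784151, (3, 35279)), (16, (1, 4)), (2068, (2, 2060)), (65616, (2, 532)), (64, (1, 16)), (1074596052, (3, 145980)), (4, (1, 8)), (524420, (2, 8232)), (517, (2, 266)), (537789125, (3, 79162)), (128, (1, 32)), (262336, (2, 4144)), (131137, (2, 1042))]),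
  (4413153662202, [(0, (0, 0)), (4413153662202, (4, 262143)), (16, (1, 1)), (4114, (2, 67)), (2150650034, (3, 18135)), (2, (1, 2)), (16432, (2, 133)), (67163194, (3, 35279)), (32, (1, 4)), (32808, (2, 2060)), (1048736, (2, 532)), (128, (1, 16)), (8595472616, (3, 145980)), (8, (1, 8)), (4194376, (2, 8232)), (1034, (2, 266)), (4301522122, (3, 79162)), (64, (1, 32)), (262336, (2, 4144)), (2097282, (2, 1042))]),
  (8850060300787, [(0, (0, 0)), (8850060300787, (4, 262143)), (128, (1, 1)), (2097282, (2, 67)), (2150650034, (3, 18135)), (2, (1, 2)), (1048736, (2, 133)), (17191403939, (3, 35279)), (32, (1, 4)), (8388641, (2, 2060)), (16432, (2, 532)), (16, (1, 16)), (34368340081, (3, 145980)), (1, (1, 8)), (131137, (2, 8232)), (259, (2, 266)), (268636499, (3, 79162)), (64, (1, 32)), (65616, (2, 4144)), (4114, (2, 1042))]),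
  (17815569967023, [(0, (0, 0)), (17815569967023, (4, 262143)), (32, (1, 1)), (8388641, (2, 67)), (68729438885, (3, 18135)), (1, (1, 2)), (1048736, (2, 133)), (17191403939, (3, 35279)), (128, (1, 4)), (2097282, (2, 2060)), (524420, (2, 532)), (4, (1, 16)), (137441584270, (3, 145980)), (2, (1, 8)), (1034, (2, 8232)), (259, (2, 266)), (33564431, (3, 79162)), (8, (1, 32)), (8204, (2, 4144)), (517, (2, 1042))]),
  (36043512604797, [(0, (0, 0)), (36043512604797, (4, 262143)), (4, (1, 1)), (2068, (2, 67)), (134277180, (3, 18135)), (16, (1, 2)), (8204, (2, 133)), (274882177116, (3, 35279)), (8, (1, 4)), (4194376, (2, 2060)), (32808, (2, 532)), (32, (1, 16)), (549768560745, (3, 145980)), (64, (1, 8)), (131137, (2, 8232)), (65616, (2, 266)), (34368340081, (3, 79162)), (1, (1, 32)), (8388641, (2, 4144)), (16432, (2, 1042))]),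
  (70996360856301, [(0, (0, 0)), (70996360856301, (4, 262143)), (4, (1, 1)), (517, (2, 67)), (68729438885, (3, 18135)), (1, (1, 2)), (524420, (2, 133)), (537789125, (3, 35279)), (128, (1, 4)), (262336, (2, 2060)), (1048736, (2, 532)), (32, (1, 16)), (8595472616, (3, 145980)), (64, (1, 8)), (4194376, (2, 8232)), (131137, (2, 266)), (549768560745, (3, 79162)), (8, (1, 32)), (32808, (2, 4144)), (8388641, (2, 1042))]),
  (141155181079774, [(0, (0, 0)), (141155181079774, (4, 262143)), (16, (1, 1)), (65616, (2, 67)), (1074596052, (3, 18135)), (64, (1, 2)), (2068, (2, 133)), (274882177116, (3, 35279)), (4, (1, 4)), (8204, (2, 2060)), (524420, (2, 532)), (128, (1, 16)), (137441584270, (3, 145980)), (8, (1, 8)), (1034, (2, 8232)), (4194376, (2, 266)), (4301522122, (3, 79162)), (2, (1, 32)), (2097282, (2, 4144)), (262336, (2, 1042))])]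

def VT2 : List (ℕ × List (ℕ × (ℕ × ℕ))) :=
  [(1, [(1, (0, 0)), (281474976710655, (4, 262143)), (259, (1, 1)), (16784151, (2, 19)), (1099763351359, (3, 4147)), (517, (1, 2)), (33564431, (2, 35)), (2200920071127, (3, 8603)), (268636499, (2, 265)), (131137, (1, 8)), (8850060300787, (3, 34125)), (17191403939, (2, 69)), (8388641, (1, 4)), (17815569967023, (3, 16999)), (68729438885, (2, 518)), (70996360856301, (3, 68238)), (537789125, (2, 138)), (549768560745, (2, 2060)), (36043512604797, (3, 134156)), (34368340081, (2, 1036))]),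
  (2, [(2, (0, 0)), (281474976710655, (4, 262143)), (259, (1, 1)), (33564431, (2, 69)), (1099763351359, (3, 16999)), (1034, (1, 4)), (16784151, (2, 35)), (17815569967023, (3, 34125)), (17191403939, (2, 265)), (2097282, (1, 8)), (8850060300787, (3, 8603)), (268636499, (2, 19)), (4114, (1, 2)), (2200920071127, (3, 4147)), (67163194, (2, 518)), (4413153662202, (3, 68238)), (2150650034, (2, 138)), (4301522122, (2, 2060)), (141155181079774, (3, 134156)), (137441584270, (2, 1036))]),
  (4, [(4, (0, 0)), (281474976710655, (4, 262143)), (517, (1, 1)), (16784151, (2, 69)), (1099763351359, (3, 34125)), (2068, (1, 4)), (33564431, (2, 265)), (2200920071127, (3, 16999)), (537789125, (2, 35)), (524420, (1, 2)), (70996360856301, (3, 4147)), (68729438885, (2, 19)), (17815569967023, (3, 8603)), (8204, (1, 8)), (137441584270, (2, 138)), (134277180, (2, 1036)), (36043512604797, (3, 134156)), (274882177116, (2, 2060)), (141155181079774, (3, 68238)), (1074596052, (2, 518))]),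
  (8, [(8, (0, 0)), (281474976710655, (4, 262143)), (1034, (1, 1)), (33564431, (2, 19)), (1099763351359, (3, 8603)), (8204, (1, 2)), (67163194, (2, 265)), (17815569967023, (3, 4147)), (137441584270, (2, 35)), (141155181079774, (3, 16999)), (4301522122, (2, 69)), (4194376, (1, 4)), (4413153662202, (3, 34125)), (32808, (1, 8)), (8595472616, (2, 1036)), (134277180, (2, 138)), (36043512604797, (3, 68238)), (549768560745, (2, 2060)), (70996360856301, (3, 134156)), (274882177116, (2, 518))]),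
  (16, [(16, (0, 0)), (281474976710655, (4, 262143)), (2068, (1, 1)), (16784151, (2, 69)), (1099763351359, (3, 34125)), (4114, (1, 4)), (134277180, (2, 265)), (2200920071127, (3, 16999)), (1074596052, (2, 35)), (65616, (1, 2)), (141155181079774, (3, 4147)), (274882177116, (2, 19)), (36043512604797, (3, 8603)), (16432, (1, 8)), (34368340081, (2, 138)), (67163194, (2, 1036)), (4413153662202, (3, 134156)), (2150650034, (2, 2060)), (8850060300787, (3, 68238)), (268636499, (2, 518))]),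
  (32, [(32, (0, 0)), (281474976710655, (4, 262143)), (16432, (1, 1)), (67163194, (2, 19)), (1099763351359, (3, 4147)), (32808, (1, 2)), (134277180, (2, 35)), (4413153662202, (3, 8603)), (2150650034, (2, 265)), (1048736, (1, 8)), (8850060300787, (3, 34125)), (34368340081, (2, 69)), (8388641, (1, 4)), (36043512604797, (3, 16999)), (549768560745, (2, 518)), (70996360856301, (3, 68238)), (8595472616, (2, 138)), (68729438885, (2, 2060)), (17815569967023, (3, 134156)), (17191403939, (2, 1036))]),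
  (64, [(64, (0, 0)), (281474976710655, (4, 262143)), (65616, (1, 1)), (268636499, (2, 19)), (2200920071127, (3, 8603)), (131137, (1, 2)), (1074596052, (2, 265)), (8850060300787, (3, 4147)), (34368340081, (2, 35)), (36043512604797, (3, 16999)), (274882177116, (2, 69)), (4194376, (1, 4)), (141155181079774, (3, 34125)), (262336, (1, 8)), (4301522122, (2, 1036)), (537789125, (2, 138)), (70996360856301, (3, 68238)), (8595472616, (2, 2060)), (4413153662202, (3, 134156)), (549768560745, (2, 518))]),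
  (128, [(128, (0, 0)), (281474976710655, (4, 262143)), (262336, (1, 1)), (537789125, (2, 19)), (2200920071127, (3, 4147)), (524420, (1, 2)), (1074596052, (2, 35)), (70996360856301, (3, 8603)), (8595472616, (2, 265)), (1048736, (1, 8)), (4413153662202, (3, 34125)), (4301522122, (2, 69)), (2097282, (1, 4)), (141155181079774, (3, 16999)), (137441584270, (2, 518)), (17815569967023, (3, 68238)), (68729438885, (2, 138)), (17191403939, (2, 2060)), (8850060300787, (3, 134156)), (2150650034, (2, 1036))])]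

def AP : List (List (ℕ × (ℕ × ℕ))) :=
  [[(0, (0, 0)), (262143, (4, 262143)), (1, (1, 1)), (67, (2, 67)), (18135, (3, 18135)), (2, (1, 2)), (133, (2, 133)), (35279, (3, 35279)), (4, (1, 4)), (2060, (2, 2060)), (532, (2, 532)), (16, (1, 16)), (145980, (3, 145980)), (8, (1, 8)), (8232, (2, 8232)), (266, (2, 266)), (79162, (3, 79162)), (32, (1, 32)), (4144, (2, 4144)), (1042, (2, 1042))],
  [(0, (0, 0)), (262143, (4, 262143)), (1, (1, 1)), (67, (2, 67)), (18135, (3, 35279)), (2, (1, 2)), (133, (2, 133)), (35279, (3, 18135)), (4, (1, 4)), (2060, (2, 532)), (532, (2, 2060)), (16, (1, 8)), (145980, (3, 145980)), (8, (1, 16)), (8232, (2, 4144)), (266, (2, 1042)), (79162, (3, 79162)), (32, (1, 32)), (4144, (2, 8232)), (1042, (2, 266))],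
  [(0, (0, 0)), (262143, (4, 262143)), (1, (1, 1)), (67, (2, 133)), (18135, (3, 35279)), (2, (1, 4)), (133, (2, 67)), (35279, (3, 18135)), (4, (1, 2)), (2060, (2, 1042)), (532, (2, 266)), (16, (1, 8)), (145980, (3, 79162)), (8, (1, 16)), (8232, (2, 4144)), (266, (2, 532)), (79162, (3, 145980)), (32, (1, 32)), (4144, (2, 8232)), (1042, (2, 2060))],
  [(0, (0, 0)), (262143, (4, 262143)), (1, (1, 1)), (67, (2, 133)), (18135, (3, 18135)), (2, (1, 4)), (133, (2, 67)), (35279, (3, 35279)), (4, (1, 2)), (2060, (2, 266)), (532, (2, 1042)), (16, (1, 16)), (145980, (3, 79162)), (8, (1, 8)), (8232, (2, 8232)), (266, (2, 2060)), (79162, (3, 145980)), (32, (1, 32)), (4144, (2, 4144)), (1042, (2, 532))],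
  [(0, (0, 0)), (262143, (4, 262143)), (1, (1, 32)), (67, (2, 4144)), (18135, (3, 79162)), (2, (1, 16)), (133, (2, 8232)), (35279, (3, 145980)), (4, (1, 8)), (2060, (2, 2060)), (532, (2, 266)), (16, (1, 2)), (145980, (3, 35279)), (8, (1, 4)), (8232, (2, 133)), (266, (2, 532)), (79162, (3, 18135)), (32, (1, 1)), (4144, (2, 67)), (1042, (2, 1042))],
  [(0, (0, 0)), (262143, (4, 262143)), (1, (1, 32)), (67, (2, 4144)), (18135, (3, 145980)), (2, (1, 16)), (133, (2, 8232)), (35279, (3, 79162)), (4, (1, 8)), (2060, (2, 266)), (532, (2, 2060)), (16, (1, 4)), (145980, (3, 35279)), (8, (1, 2)), (8232, (2, 67)), (266, (2, 1042)), (79162, (3, 18135)), (32, (1, 1)), (4144, (2, 133)), (1042, (2, 532))],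
  [(0, (0, 0)), (262143, (4, 262143)), (1, (1, 32)), (67, (2, 8232)), (18135, (3, 145980)), (2, (1, 8)), (133, (2, 4144)), (35279, (3, 79162)), (4, (1, 16)), (2060, (2, 1042)), (532, (2, 532)), (16, (1, 4)), (145980, (3, 18135)), (8, (1, 2)), (8232, (2, 67)), (266, (2, 266)), (79162, (3, 35279)), (32, (1, 1)), (4144, (2, 133)), (1042, (2, 2060))],
  [(0, (0, 0)), (262143, (4, 262143)), (1, (1, 32)), (67, (2, 8232)), (18135, (3, 79162)), (2, (1, 8)), (133, (2, 4144)), (35279, (3, 145980)), (4, (1, 16)), (2060, (2, 532)), (532, (2, 1042)), (16, (1, 2)), (145980, (3, 18135)), (8, (1, 4)), (8232, (2, 133)), (266, (2, 2060)), (79162, (3, 35279)), (32, (1, 1)), (4144, (2, 67)), (1042, (2, 266))]]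

def AQ : List (List (ℕ × (ℕ × ℕ))) :=
  [[(0, (0, 0)), (262143, (4, 262143)), (1, (1, 1)), (19, (2, 19)), (4147, (3, 4147)), (2, (1, 2)), (35, (2, 35)), (8603, (3, 8603)), (265, (2, 265)), (8, (1, 8)), (34125, (3, 34125)), (69, (2, 69)), (4, (1, 4)), (16999, (3, 16999)), (518, (2, 518)), (68238, (3, 68238)), (138, (2, 138)), (2060, (2, 2060)), (134156, (3, 134156)), (1036, (2, 1036))],
  [(0, (0, 0)), (262143, (4, 262143)), (1, (1, 1)), (19, (2, 35)), (4147, (3, 4147)), (2, (1, 2)), (35, (2, 19)), (8603, (3, 16999)), (265, (2, 69)), (8, (1, 4)), (34125, (3, 34125)), (69, (2, 265)), (4, (1, 8)), (16999, (3, 8603)), (518, (2, 138)), (68238, (3, 68238)), (138, (2, 518)), (2060, (2, 2060)), (134156, (3, 134156)), (1036, (2, 1036))],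
  [(0, (0, 0)), (262143, (4, 262143)), (1, (1, 2)), (19, (2, 19)), (4147, (3, 4147)), (2, (1, 1)), (35, (2, 35)), (8603, (3, 8603)), (265, (2, 138)), (8, (1, 8)), (34125, (3, 68238)), (69, (2, 518)), (4, (1, 4)), (16999, (3, 16999)), (518, (2, 69)), (68238, (3, 34125)), (138, (2, 265)), (2060, (2, 1036)), (134156, (3, 134156)), (1036, (2, 2060))],
  [(0, (0, 0)), (262143, (4, 262143)), (1, (1, 2)), (19, (2, 35)), (4147, (3, 4147)), (2, (1, 1)), (35, (2, 19)), (8603, (3, 16999)), (265, (2, 518)), (8, (1, 4)), (34125, (3, 68238)), (69, (2, 138)), (4, (1, 8)), (16999, (3, 8603)), (518, (2, 265)), (68238, (3, 34125)), (138, (2, 69)), (2060, (2, 1036)), (134156, (3, 134156)), (1036, (2, 2060))],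
  [(0, (0, 0)), (262143, (4, 262143)), (1, (1, 8)), (19, (2, 1036)), (4147, (3, 134156)), (2, (1, 4)), (35, (2, 2060)), (8603, (3, 34125)), (265, (2, 265)), (8, (1, 1)), (34125, (3, 8603)), (69, (2, 138)), (4, (1, 2)), (16999, (3, 68238)), (518, (2, 518)), (68238, (3, 16999)), (138, (2, 69)), (2060, (2, 35)), (134156, (3, 4147)), (1036, (2, 19))],
  [(0, (0, 0)), (262143, (4, 262143)), (1, (1, 4)), (19, (2, 2060)), (4147, (3, 134156)), (2, (1, 8)), (35, (2, 1036)), (8603, (3, 68238)), (265, (2, 518)), (8, (1, 2)), (34125, (3, 16999)), (69, (2, 69)), (4, (1, 1)), (16999, (3, 34125)), (518, (2, 265)), (68238, (3, 8603)), (138, (2, 138)), (2060, (2, 19)), (134156, (3, 4147)), (1036, (2, 35))],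
  [(0, (0, 0)), (262143, (4, 262143)), (1, (1, 8)), (19, (2, 2060)), (4147, (3, 134156)), (2, (1, 4)), (35, (2, 1036)), (8603, (3, 68238)), (265, (2, 138)), (8, (1, 2)), (34125, (3, 8603)), (69, (2, 265)), (4, (1, 1)), (16999, (3, 34125)), (518, (2, 69)), (68238, (3, 16999)), (138, (2, 518)), (2060, (2, 35)), (134156, (3, 4147)), (1036, (2, 19))],
  [(0, (0, 0)), (262143, (4, 262143)), (1, (1, 4)), (19, (2, 1036)), (4147, (3, 134156)), (2, (1, 8)), (35, (2, 2060)), (8603, (3, 34125)), (265, (2, 69)), (8, (1, 1)), (34125, (3, 16999)), (69, (2, 518)), (4, (1, 2)), (16999, (3, 68238)), (518, (2, 138)), (68238, (3, 8603)), (138, (2, 265)), (2060, (2, 19)), (134156, (3, 4147)), (1036, (2, 35))]]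


lemma goodP : Good 3 LP (0, 0) (4, 262143) := good_of_chk (by decide +kernel)
lemma goodQ : Good 3 LQ (0, 0) (4, 262143) := good_of_chk (by decide +kernel)
lemma goodR1 : Good 4 LR1 (0, 0) (5, 68719476735) := good_of_chk (by decide +kernel)
lemma goodR2 : Good 4 LR2 (0, 0) (5, 281474976710655) := good_of_chk (by decide +kernel)

lemma amal1 : IsAmalgamation (mkPoly goodP) (mkPoly goodQ) (mkPoly goodR1) :=
  amal_of_chk goodR1 goodP goodQ (FT := FT1) (VT := VT1) (by decide +kernel)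

lemma amal2 : IsAmalgamation (mkPoly goodP) (mkPoly goodQ) (mkPoly goodR2) :=
  amal_of_chk goodR2 goodP goodQ (FT := FT2) (VT := VT2) (by decide +kernel)

lemma notSpecial1 : ¬ Special (mkPoly goodR1) := not_special_of_chk goodR1 (by decide +kernel)

lemma special2 : Special (mkPoly goodR2) :=
  special_of_chk (v := (1, 2)) (v' := (1, 1)) (e := (2, 259)) (f := (3, 16784151))
    (F := (4, 1099763351359)) (F' := (4, 2200920071127)) goodR2 (by decide +kernel)

/-- There are finite abstract polytopes `P`, `Q` of rank three and flag orbits (those of the flags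
`Φ` and `Ψ`) that admit a rooted amalgamation but no universal rooted amalgamation. -/
theorem result : ∃ (P Q : Polytope 3) (Φ : Flag P.Face) (Ψ : Flag Q.Face),
    Finite P.Face ∧ Finite Q.Face ∧
    (∃ R : Polytope 4, IsRootedAmalgamation P Q Φ Ψ R) ∧
    ¬ ∃ U : Polytope 4, IsUniversalRooted P Q Φ Ψ U := by
  obtain ⟨Φ, hΦ⟩ := rootP_of_chk (v0 := (1, 1)) (e0 := (2, 67)) (f0 := (3, 18135)) (A := AP) goodP
    (by decide +kernel)
  obtain ⟨Ψ, hΨ⟩ := rootQ_of_chk (v0 := (1, 1)) (e0 := (2, 19)) (f0 := (3, 4147)) (A := AQ) goodQ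
    (by decide +kernel)
  have finP : Finite (mkPoly goodP).Face := inferInstanceAs (Finite (PF LP))
  have finQ : Finite (mkPoly goodQ).Face := inferInstanceAs (Finite (PF LQ))
  have rooted : ∀ R : Polytope 4, IsAmalgamation (mkPoly goodP) (mkPoly goodQ) R →
      IsRootedAmalgamation (mkPoly goodP) (mkPoly goodQ) Φ Ψ R := by
    intro R hR
    have key : ∀ A : Flag R.Face, FacetType (mkPoly goodP) Φ R A ↔
        VertexType (mkPoly goodQ) Ψ R A := by
      intro A
      obtain ⟨v, hv, hv1⟩ := flag_exists R.flag_ranks A (show 1 ≤ 4 + 1 by norm_num)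
      obtain ⟨F, hF, hF4⟩ := flag_exists R.flag_ranks A (show 4 ≤ 4 + 1 by norm_num)
      rw [facetType_iff hR Φ (by norm_num) hΦ A hv hF hv1 hF4,
        vertexType_iff hR Ψ (by norm_num) hΨ A hv hF hv1 hF4]
    exact ⟨hR, fun A => (key A).mp, fun A => (key A).mpr⟩
  refine ⟨mkPoly goodP, mkPoly goodQ, Φ, Ψ, finP, finQ, ⟨_, rooted _ amal1⟩, ?_⟩
  rintro ⟨U, hU⟩
  obtain ⟨π₁, hπ₁⟩ := hU.covers _ (rooted _ amal1)
  obtain ⟨π₂, hπ₂⟩ := hU.covers _ (rooted _ amal2)
  exact notSpecial1 (special_push hU.rooted.amalgamation amal1 hπ₁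
    (special_pull hU.rooted.amalgamation amal2 hπ₂ special2))

end Pool.Agent.Results.MP_993768_co.NoUniversalRooted
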